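import Mathlib

/-!
The number of weakly increasing maps with strict steps at prescribed places.
-/

set_option autoImplicit false

open Finset

namespace Pool.Agent.Q162.Gam

/-- the values shifted by one place, `0` at place `0` -/
def ext {n : ℕ} (f : Fin n → ℕ) (k : ℕ) : ℕ :=
  if h : 1 ≤ k ∧ k ≤ n then f ⟨k - 1, by omega⟩ else 0

lemma ext_zero {n : ℕ} (f : Fin n → ℕ) : ext f 0 = 0 := by
  unfold ext; rw [dif_neg (by omega)]

lemma ext_succ {n : ℕ} (f : Fin n → ℕ) (a : Fin n) : ext f (a.1 + 1) = f a := by
  have := a.2
  unfold ext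
  rw [dif_pos (by omega)]
  simp

def eps (D : Finset ℕ) (i : ℕ) : ℕ := if i ∈ D then 1 else 0

/-- the step condition -/
def Cp {n : ℕ} (D : Finset ℕ) (f : Fin n → ℕ) : Prop :=
  ∀ i < n, ext f i + eps D i ≤ ext f (i + 1)

instance {n : ℕ} (D : Finset ℕ) : DecidablePred (Cp (n := n) D) := by
  unfold Cp; infer_instance

def T (n m : ℕ) (D : Finset ℕ) : Finset (Fin n → ℕ) :=
  (Fintype.piFinset fun _ : Fin n => range (m + 1)).filter (Cp D)

lemma mem_T {n m : ℕ} {D : Finset ℕ} {f : Fin n → ℕ} :
    f ∈ T n m D ↔ (∀ a, f a ≤ m) ∧ Cp D f := by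
  unfold T
  rw [mem_filter, Fintype.mem_piFinset]
  simp only [mem_range, Nat.lt_succ_iff]

lemma Cp.mono {n : ℕ} {D : Finset ℕ} {f : Fin n → ℕ} (h : Cp D f) {i j : ℕ} (hij : i ≤ j)
    (hj : j ≤ n) : ext f i ≤ ext f j := by
  induction j, hij using Nat.le_induction with
  | base => exact le_rfl
  | succ j hij ih =>
    have := h j (by omega)
    have := ih (by omega)
    omega

lemma Cp.mono' {n : ℕ} {D : Finset ℕ} {f : Fin n → ℕ} (h : Cp D f) {a b : Fin n} (hab : a ≤ b) :
    f a ≤ f b := by
  rw [← ext_succ f a, ← ext_succ f b]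
  exact h.mono (by have := Fin.le_def.1 hab; omega) (by have := b.2; omega)

lemma ext_init {n : ℕ} (f : Fin (n + 1) → ℕ) {k : ℕ} (hk : k ≤ n) :
    ext (fun a : Fin n => f a.castSucc) k = ext f k := by
  unfold ext
  by_cases h : 1 ≤ k
  · rw [dif_pos ⟨h, hk⟩, dif_pos ⟨h, by omega⟩]
    rfl
  · rw [dif_neg (by omega), dif_neg (by omega)]

lemma ext_last {n : ℕ} (f : Fin (n + 1) → ℕ) : ext f (n + 1) = f (Fin.last n) := by
  have := ext_succ f (Fin.last n)
  rwa [Fin.val_last] at this

def dn (D : Finset ℕ) (n : ℕ) : ℕ := (D.filter (· < n)).card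

lemma dn_le (D : Finset ℕ) (n : ℕ) : dn D n ≤ n := by
  unfold dn
  have h : D.filter (· < n) ⊆ range n := by
    intro x hx
    rw [mem_filter] at hx
    exact mem_range.2 hx.2
  simpa using card_le_card h

lemma dn_succ (D : Finset ℕ) (n : ℕ) : dn D (n + 1) = dn D n + eps D n := by
  unfold dn eps
  by_cases h : n ∈ D
  · rw [if_pos h]
    have : D.filter (· < n + 1) = insert n (D.filter (· < n)) := by
      ext x
      rw [mem_filter, mem_insert, mem_filter]
      constructor
      · rintro ⟨h1, h2⟩
        by_cases h3 : x = n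
        · exact Or.inl h3
        · exact Or.inr ⟨h1, by omega⟩
      · rintro (h1 | ⟨h1, h2⟩)
        · subst h1; exact ⟨h, by omega⟩
        · exact ⟨h1, by omega⟩
    rw [this, card_insert_of_notMem (by simp)]
  · rw [if_neg h]
    have : D.filter (· < n + 1) = D.filter (· < n) := by
      ext x
      rw [mem_filter, mem_filter]
      constructor
      · rintro ⟨h1, h2⟩
        refine ⟨h1, ?_⟩
        by_contra h3
        have : x = n := by omega
        subst this
        exact h h1
      · rintro ⟨h1, h2⟩
        exact ⟨h1, by omega⟩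
    rw [this]
    rfl

lemma card_T_fiber (n m : ℕ) (D : Finset ℕ) {v : ℕ} (hv : v ≤ m) (he : eps D n ≤ v) :
    ((T (n + 1) m D).filter (fun f => f (Fin.last n) = v)).card = (T n (v - eps D n) D).card := by
  apply card_nbij' (fun f a => f a.castSucc) (fun g => Fin.snoc g v)
  · intro f hf
    obtain ⟨hf, hfv⟩ := mem_filter.1 (mem_coe.1 hf)
    obtain ⟨h1, h2⟩ := mem_T.1 hf
    refine mem_coe.2 (mem_T.2 ⟨?_, ?_⟩)
    · intro a
      show f a.castSucc ≤ _
      have h3 := h2 n (by omega)
      rw [ext_last, hfv] at h3
      have h4 : ext f (a.1 + 1) ≤ ext f n := h2.mono (by have := a.2; omega) (by omega)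
      have h5 := ext_succ f a.castSucc
      rw [Fin.val_castSucc] at h5
      rw [h5] at h4
      omega
    · intro i hi
      rw [ext_init f (by omega), ext_init f (by omega)]
      exact h2 i (by omega)
  · intro g hg
    obtain ⟨h1, h2⟩ := mem_T.1 (mem_coe.1 hg)
    have hsn : ∀ a : Fin n, (Fin.snoc g v : Fin (n + 1) → ℕ) a.castSucc = g a := by
      intro a; simp
    have hin : ∀ k ≤ n, ext (Fin.snoc g v : Fin (n + 1) → ℕ) k = ext g k := by
      intro k hk
      rw [← ext_init _ hk]
      congr 1
      funext a
      exact hsn a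
    have hlast : (Fin.snoc g v : Fin (n + 1) → ℕ) (Fin.last n) = v := by simp
    refine mem_coe.2 (mem_filter.2 ⟨mem_T.2 ⟨?_, ?_⟩, hlast⟩)
    · intro a
      show (Fin.snoc g v : Fin (n + 1) → ℕ) a ≤ m
      refine Fin.lastCases ?_ (fun b => ?_) a
      · rw [hlast]; exact hv
      · rw [hsn]
        have := h1 b
        omega
    · intro i hi
      show ext (Fin.snoc g v : Fin (n + 1) → ℕ) i + eps D i ≤
        ext (Fin.snoc g v : Fin (n + 1) → ℕ) (i + 1)
      rw [hin i (by omega)]
      by_cases h : i = n
      · subst h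
        rw [ext_last, hlast]
        rcases Nat.eq_zero_or_pos i with h0 | h0
        · subst h0
          rw [ext_zero]
          omega
        · have h3 := ext_succ g ⟨i - 1, by omega⟩
          simp only at h3
          rw [show i - 1 + 1 = i by omega] at h3
          have := h1 ⟨i - 1, by omega⟩
          rw [h3]
          omega
      · rw [hin (i + 1) (by omega)]
        exact h2 i (by omega)
  · intro f hf
    obtain ⟨hf, hfv⟩ := mem_filter.1 (mem_coe.1 hf)
    funext a
    refine Fin.lastCases ?_ (fun b => ?_) a
    · simp [hfv]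
    · simp
  · intro g _
    funext a
    simp

lemma hockey (n d m : ℕ) (hd : d ≤ n) :
    ∑ v ∈ range (m + 1), (v + n - d).choose n = (m + n + 1 - d).choose (n + 1) := by
  induction m with
  | zero =>
    rw [sum_range_one]
    rcases Nat.eq_zero_or_pos d with h | h
    · subst h; simp
    · rw [Nat.choose_eq_zero_of_lt (by omega), Nat.choose_eq_zero_of_lt (by omega)]
  | succ m ih =>
    rw [sum_range_succ, ih]
    rw [show m + 1 + n + 1 - d = (m + n + 1 - d) + 1 by omega, Nat.choose_succ_succ',
      show m + 1 + n - d = m + n + 1 - d by omega]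
    ring

theorem card_T (n m : ℕ) (D : Finset ℕ) : (T n m D).card = (m + n - dn D n).choose n := by
  induction n generalizing m with
  | zero =>
    have : T 0 m D = {fun a => a.elim0} := by
      ext f
      rw [mem_T, mem_singleton]
      constructor
      · intro _; funext a; exact a.elim0
      · rintro rfl
        exact ⟨fun a => a.elim0, fun i hi => absurd hi (by omega)⟩
    rw [this]
    simp
  | succ n ih =>
    rw [card_eq_sum_card_fiberwise (f := fun f => f (Fin.last n)) (t := range (m + 1))]
    · have hdn := dn_le D n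
      rw [dn_succ]
      by_cases he : eps D n = 0
      · have h1 : ∀ v ∈ range (m + 1), ((T (n + 1) m D).filter
            (fun f => f (Fin.last n) = v)).card = (v + n - dn D n).choose n := by
          intro v hv
          rw [card_T_fiber n m D (by rw [mem_range] at hv; omega) (by omega), ih, he, Nat.sub_zero]
        rw [sum_congr rfl h1, hockey n _ m hdn, he]
        congr 1
      · have he1 : eps D n = 1 := by
          unfold eps at he ⊢
          split_ifs at he ⊢ with h
          · rfl
          · exact absurd rfl he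
        rw [sum_range_succ']
        have h0 : ((T (n + 1) m D).filter (fun f => f (Fin.last n) = 0)).card = 0 := by
          rw [card_eq_zero, filter_eq_empty_iff]
          intro f hf h
          obtain ⟨_, h2⟩ := mem_T.1 hf
          have := h2 n (by omega)
          rw [ext_last, h] at this
          omega
        have h1 : ∀ v ∈ range m, ((T (n + 1) m D).filter
            (fun f => f (Fin.last n) = v + 1)).card = (v + n - dn D n).choose n := by
          intro v hv
          rw [card_T_fiber n m D (by rw [mem_range] at hv; omega) (by omega), ih, he1,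
            Nat.add_sub_cancel]
        rw [h0, sum_congr rfl h1, add_zero, he1]
        rcases Nat.eq_zero_or_pos m with hm | hm
        · subst hm
          rw [range_zero, sum_empty, Nat.choose_eq_zero_of_lt (by omega)]
        · obtain ⟨m, rfl⟩ : ∃ k, m = k + 1 := ⟨m - 1, by omega⟩
          rw [hockey n _ m hdn]
          congr 1
          omega
    · intro f hf
      obtain ⟨h1, _⟩ := mem_T.1 (mem_coe.1 hf)
      exact mem_coe.2 (mem_range.2 (Nat.lt_succ_of_le (h1 (Fin.last n))))

end Pool.Agent.Q162.Gam
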