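import Mathlib

/-!
Symmetric nonnegative integer functions on a finite set with an involution: a recurrence for the
number of those with a given sum.
-/

set_option autoImplicit false

open Finset

namespace Pool.Agent.Q162.Gam

variable {α : Type*} [DecidableEq α]

/-- functions with support in `S`, sum `n`, invariant under `star` -/
noncomputable def Mt (S : Finset α) (star : α → α) (n : ℕ) : Finset (α → ℕ) :=
  open scoped Classical in (S.piAntidiag n).filter (fun M => ∀ x, M (star x) = M x)

lemma mem_Mt {S : Finset α} {star : α → α} {n : ℕ} {M : α → ℕ} :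
    M ∈ Mt S star n ↔ S.sum M = n ∧ (∀ x, M x ≠ 0 → x ∈ S) ∧ ∀ x, M (star x) = M x := by
  classical
  unfold Mt
  rw [mem_filter, mem_piAntidiag, and_assoc]

/-- the sum of the values at `x` -/
noncomputable def Ev (S : Finset α) (star : α → α) (x : α) (n : ℕ) : ℕ := ∑ M ∈ Mt S star n, M x

lemma sum_Ev (S : Finset α) (star : α → α) (n : ℕ) :
    ∑ x ∈ S, Ev S star x n = n * (Mt S star n).card := by
  unfold Ev
  rw [sum_comm, sum_congr rfl (fun M hM => (mem_Mt.1 hM).1), sum_const, smul_eq_mul, mul_comm]

lemma Ev_zero (S : Finset α) (star : α → α) (x : α) : Ev S star x 0 = 0 := by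
  unfold Ev
  apply sum_eq_zero
  intro M hM
  obtain ⟨h1, h2, _⟩ := mem_Mt.1 hM
  by_contra h
  have := sum_eq_zero_iff.1 h1 x (h2 x h)
  exact h this

/-- bijection `M ↦ M + δ` between the functions of sum `n` and those of sum `n + c` that are
positive at `x` -/
lemma Ev_shift {S : Finset α} {star : α → α} (hs : ∀ x, star (star x) = x)
    (hS : ∀ x ∈ S, star x ∈ S) {x : α} (hx : x ∈ S) (δ : α → ℕ) (c n : ℕ)
    (hδ : δ = fun y => if y = x ∨ y = star x then 1 else 0) (hc : S.sum δ = c) :
    Ev S star x (n + c) = (Mt S star n).card + Ev S star x n := by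
  have hδs : ∀ y, δ (star y) = δ y := by
    intro y
    rw [hδ]
    by_cases h : y = x ∨ y = star x
    · have h' : star y = x ∨ star y = star x := by
        rcases h with h | h
        · right; rw [h]
        · left; rw [h, hs]
      simp only [if_pos h, if_pos h']
    · have h' : ¬ (star y = x ∨ star y = star x) := by
        rintro (h' | h')
        · exact h (Or.inr (by rw [← h', hs]))
        · exact h (Or.inl (by rw [← hs y, h', hs]))
      simp only [if_neg h, if_neg h']
  have hδS : ∀ y, δ y ≠ 0 → y ∈ S := by
    intro y hy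
    rw [hδ] at hy
    simp only [ne_eq, ite_eq_right_iff, one_ne_zero, imp_false, not_not] at hy
    rcases hy with h | h
    · rw [h]; exact hx
    · rw [h]; exact hS x hx
  have hδx : δ x = 1 := by rw [hδ]; simp
  have h1 : Ev S star x (n + c) = ∑ M ∈ (Mt S star (n + c)).filter (fun M => 1 ≤ M x), M x := by
    unfold Ev
    rw [sum_filter]
    apply sum_congr rfl
    intro M _
    split_ifs with h
    · rfl
    · omega
  rw [h1]
  have h2 : ∑ M ∈ (Mt S star (n + c)).filter (fun M => 1 ≤ M x), M x =
      ∑ M ∈ Mt S star n, (M x + 1) := by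
    refine sum_nbij' (fun M y => M y - δ y) (fun M y => M y + δ y) ?_ ?_ ?_ ?_ ?_
    · intro M hM
      obtain ⟨hM, hMx⟩ := mem_filter.1 hM
      obtain ⟨e1, e2, e3⟩ := mem_Mt.1 hM
      have hle : ∀ y, δ y ≤ M y := by
        intro y
        by_cases h : y = x ∨ y = star x
        · have : M y = M x := by
            rcases h with h | h
            · rw [h]
            · rw [h, e3]
          have hd : δ y = 1 := by rw [hδ]; simp only [if_pos h]
          omega
        · have hd : δ y = 0 := by rw [hδ]; simp only [if_neg h]
          omega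
      refine mem_Mt.2 ⟨?_, ?_, ?_⟩
      · have : S.sum (fun y => M y - δ y) + S.sum δ = S.sum M := by
          rw [← sum_add_distrib]
          apply sum_congr rfl
          intro y _
          have := hle y
          omega
        have h' : S.sum (fun y => M y - δ y) + c = n + c := by rw [← hc, this, e1, hc]
        omega
      · intro y hy
        apply e2
        intro h
        rw [h] at hy
        simp at hy
      · intro y
        simp only [e3, hδs]
    · intro M hM
      obtain ⟨e1, e2, e3⟩ := mem_Mt.1 hM
      refine mem_filter.2 ⟨mem_Mt.2 ⟨?_, ?_, ?_⟩, ?_⟩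
      · rw [sum_add_distrib, e1, hc]
      · intro y hy
        by_cases h : M y = 0
        · apply hδS
          intro h'
          rw [h, h'] at hy
          exact hy rfl
        · exact e2 y h
      · intro y
        simp only [e3, hδs]
      · simp only [hδx]; omega
    · intro M hM
      obtain ⟨hM, hMx⟩ := mem_filter.1 hM
      obtain ⟨e1, e2, e3⟩ := mem_Mt.1 hM
      funext y
      by_cases h : y = x ∨ y = star x
      · have : M y = M x := by
          rcases h with h | h
          · rw [h]
          · rw [h, e3]
        have hd : δ y = 1 := by rw [hδ]; simp only [if_pos h]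
        simp only [hd]; omega
      · have hd : δ y = 0 := by rw [hδ]; simp only [if_neg h]
        simp only [hd]; omega
    · intro M _
      funext y
      simp
    · intro M hM
      obtain ⟨hM, hMx⟩ := mem_filter.1 hM
      simp only [hδx]
      omega
  rw [h2, sum_add_distrib]
  unfold Ev
  simp
  ring

lemma sum_delta_fix {S : Finset α} {star : α → α} {x : α} (hx : x ∈ S) (hfix : star x = x) :
    S.sum (fun y => if y = x ∨ y = star x then 1 else 0) = 1 := by
  rw [hfix]
  simp only [or_self]
  rw [sum_ite_eq' S x (fun _ => 1), if_pos hx]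

lemma sum_delta_free {S : Finset α} {star : α → α} (hS : ∀ x ∈ S, star x ∈ S) {x : α}
    (hx : x ∈ S) (hfree : star x ≠ x) :
    S.sum (fun y => if y = x ∨ y = star x then 1 else 0) = 2 := by
  have h : ∀ y, (if y = x ∨ y = star x then 1 else 0 : ℕ) =
      (if y = x then 1 else 0) + (if y = star x then 1 else 0) := by
    intro y
    by_cases h1 : y = x
    · subst h1
      rw [if_pos (Or.inl rfl), if_pos rfl, if_neg (fun h => hfree h.symm)]
    · by_cases h2 : y = star x
      · rw [if_pos (Or.inr h2), if_neg h1, if_pos h2]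
      · rw [if_neg (by tauto), if_neg h1, if_neg h2]
  rw [sum_congr rfl (fun y _ => h y), sum_add_distrib, sum_ite_eq' S x (fun _ => 1),
    sum_ite_eq' S (star x) (fun _ => 1), if_pos hx, if_pos (hS x hx)]

lemma Ev_one_free {S : Finset α} {star : α → α} (hS : ∀ x ∈ S, star x ∈ S) {x : α}
    (hx : x ∈ S) (hfree : star x ≠ x) : Ev S star x 1 = 0 := by
  unfold Ev
  apply sum_eq_zero
  intro M hM
  obtain ⟨e1, e2, e3⟩ := mem_Mt.1 hM
  by_contra h
  have h1 : M x + M (star x) ≤ S.sum M := by
    have h2 : ({x, star x} : Finset α) ⊆ S := by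
      intro y hy
      rw [mem_insert, mem_singleton] at hy
      rcases hy with h | h
      · rw [h]; exact hx
      · rw [h]; exact hS x hx
    have := sum_le_sum_of_subset h2 (f := M)
    rwa [sum_pair (fun h => hfree h.symm)] at this
  rw [e1, e3] at h1
  omega

lemma card_Mt_zero (S : Finset α) (star : α → α) : (Mt S star 0).card = 1 := by
  rw [card_eq_one]
  refine ⟨fun _ => 0, ?_⟩
  ext M
  rw [mem_singleton, mem_Mt]
  constructor
  · rintro ⟨e1, e2, _⟩
    funext x
    by_contra h
    exact h (sum_eq_zero_iff.1 e1 x (e2 x h))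
  · rintro rfl
    exact ⟨by simp, by simp, by simp⟩

variable (S : Finset α) (star : α → α)

/-- the recurrence -/
theorem card_Mt_rec (hs : ∀ x, star (star x) = x) (hS : ∀ x ∈ S, star x ∈ S) (n : ℕ) :
    (n + 2) * (Mt S star (n + 2)).card =
      (S.filter (fun x => star x = x)).card * ((Mt S star (n + 1)).card + (Mt S star n).card) +
      (S.filter (fun x => ¬ star x = x)).card * (Mt S star n).card +
      n * (Mt S star n).card := by
  rw [← sum_Ev S star (n + 2), ← sum_filter_add_sum_filter_not S (fun x => star x = x)]
  have h1 : ∀ x ∈ S.filter (fun x => star x = x), Ev S star x (n + 2) =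
      ((Mt S star (n + 1)).card + (Mt S star n).card) + Ev S star x n := by
    intro x hx
    obtain ⟨hx, hf⟩ := mem_filter.1 hx
    have e1 := Ev_shift hs hS hx _ 1 n rfl (sum_delta_fix hx hf)
    have e2 := Ev_shift hs hS hx _ 1 (n + 1) rfl (sum_delta_fix hx hf)
    rw [show n + 2 = n + 1 + 1 by ring, e2, e1]
    ring
  have h2 : ∀ x ∈ S.filter (fun x => ¬ star x = x), Ev S star x (n + 2) =
      (Mt S star n).card + Ev S star x n := by
    intro x hx
    obtain ⟨hx, hf⟩ := mem_filter.1 hx
    exact Ev_shift hs hS hx _ 2 n rfl (sum_delta_free hS hx hf)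
  have h3 := sum_Ev S star n
  rw [← sum_filter_add_sum_filter_not S (fun x => star x = x)] at h3
  rw [sum_congr rfl h1, sum_congr rfl h2, sum_add_distrib (f := fun _ => _),
    sum_add_distrib (f := fun _ => (Mt S star n).card), sum_const, sum_const,
    smul_eq_mul, smul_eq_mul, ← h3]
  ring

theorem card_Mt_one (hs : ∀ x, star (star x) = x) (hS : ∀ x ∈ S, star x ∈ S) :
    (Mt S star 1).card = (S.filter (fun x => star x = x)).card := by
  have h := sum_Ev S star 1
  rw [one_mul, ← sum_filter_add_sum_filter_not S (fun x => star x = x)] at h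
  rw [← h]
  have h1 : ∀ x ∈ S.filter (fun x => star x = x), Ev S star x 1 = 1 := by
    intro x hx
    obtain ⟨hx, hf⟩ := mem_filter.1 hx
    have e1 := Ev_shift hs hS hx _ 1 0 rfl (sum_delta_fix hx hf)
    rw [zero_add] at e1
    rw [e1, card_Mt_zero, Ev_zero]
  have h2 : ∀ x ∈ S.filter (fun x => ¬ star x = x), Ev S star x 1 = 0 := by
    intro x hx
    obtain ⟨hx, hf⟩ := mem_filter.1 hx
    exact Ev_one_free hS hx hf
  rw [sum_congr rfl h1, sum_congr rfl h2]
  simp

end Pool.Agent.Q162.Gam
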