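import Mathlib
import Pool.Agent.Q166.BInv
import Pool.Agent.Q162.Gam.Mat
import Pool.Agent.Q162.Gam.Cnt

/-!
Signed involutions with compatible sequences correspond to symmetric matrices.
-/

set_option autoImplicit false

open Finset Q166.BInv

namespace Pool.Agent.Q162.Gam

/-! ### letters -/

/-- letters: block, sign, block of the image -/
abbrev Lt := ℕ ×ₗ Bool ×ₗ ℕ

def li (x : Lt) : ℕ := (ofLex x).1
def ls (x : Lt) : Bool := (ofLex (ofLex x).2).1
def lj (x : Lt) : ℕ := (ofLex (ofLex x).2).2
def mk (i : ℕ) (s : Bool) (j : ℕ) : Lt := toLex (i, toLex (s, j))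

@[simp] lemma li_mk (i : ℕ) (s : Bool) (j : ℕ) : li (mk i s j) = i := rfl
@[simp] lemma ls_mk (i : ℕ) (s : Bool) (j : ℕ) : ls (mk i s j) = s := rfl
@[simp] lemma lj_mk (i : ℕ) (s : Bool) (j : ℕ) : lj (mk i s j) = j := rfl
lemma mk_eta (x : Lt) : mk (li x) (ls x) (lj x) = x := rfl

lemma lt_ext {x y : Lt} (h1 : li x = li y) (h2 : ls x = ls y) (h3 : lj x = lj y) : x = y := by
  rw [← mk_eta x, ← mk_eta y, h1, h2, h3]

lemma le_iff (x y : Lt) : x ≤ y ↔
    li x < li y ∨ (li x = li y ∧ (ls x < ls y ∨ (ls x = ls y ∧ lj x ≤ lj y))) := by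
  have h1 : x = toLex (li x, toLex (ls x, lj x)) := rfl
  have h2 : y = toLex (li y, toLex (ls y, lj y)) := rfl
  rw [h1, h2, Prod.Lex.toLex_le_toLex, Prod.Lex.toLex_le_toLex]
  rfl

def star (x : Lt) : Lt := mk (lj x) (ls x) (li x)

lemma star_star (x : Lt) : star (star x) = x := rfl

/-- the letters with entries at most `m` (negative letters have positive entries) -/
def S (m : ℕ) : Finset Lt :=
  (range (m + 1) ×ˢ range (m + 1)).image (fun p => mk p.1 true p.2) ∪
    (Icc 1 m ×ˢ Icc 1 m).image (fun p => mk p.1 false p.2)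

lemma mem_S {m : ℕ} {x : Lt} : x ∈ S m ↔ li x ≤ m ∧ lj x ≤ m ∧
    (ls x = false → 1 ≤ li x ∧ 1 ≤ lj x) := by
  unfold S
  rw [mem_union, mem_image, mem_image]
  constructor
  · rintro (⟨⟨i, j⟩, h, rfl⟩ | ⟨⟨i, j⟩, h, rfl⟩)
    · rw [mem_product, mem_range, mem_range] at h
      simp only [li_mk, lj_mk, ls_mk, Bool.true_eq_false, false_imp_iff, and_true] at h ⊢
      omega
    · rw [mem_product, mem_Icc, mem_Icc] at h
      simp only [li_mk, lj_mk, ls_mk, forall_true_left] at h ⊢
      omega
  · rintro ⟨h1, h2, h3⟩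
    rcases Bool.eq_false_or_eq_true (ls x) with h | h
    · left
      refine ⟨(li x, lj x), ?_, ?_⟩
      · rw [mem_product, mem_range, mem_range]
        exact ⟨Nat.lt_succ_of_le h1, Nat.lt_succ_of_le h2⟩
      · rw [← mk_eta x, h]; rfl
    · right
      refine ⟨(li x, lj x), ?_, ?_⟩
      · rw [mem_product, mem_Icc, mem_Icc]
        exact ⟨⟨(h3 h).1, h1⟩, (h3 h).2, h2⟩
      · rw [← mk_eta x, h]; rfl

lemma star_mem {m : ℕ} : ∀ x ∈ S m, star x ∈ S m := by
  intro x hx
  obtain ⟨h1, h2, h3⟩ := mem_S.1 hx
  refine mem_S.2 ⟨h2, h1, fun h => ?_⟩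
  exact ⟨(h3 h).2, (h3 h).1⟩

lemma card_fix (m : ℕ) : ((S m).filter (fun x => star x = x)).card = 2 * m + 1 := by
  have : (S m).filter (fun x => star x = x) =
      (range (m + 1)).image (fun i => mk i true i) ∪ (Icc 1 m).image (fun i => mk i false i) := by
    ext x
    rw [mem_filter, mem_S, mem_union, mem_image, mem_image]
    constructor
    · rintro ⟨⟨h1, h2, h3⟩, h4⟩
      have h5 : lj x = li x := congrArg li h4
      rcases Bool.eq_false_or_eq_true (ls x) with h | h
      · left
        exact ⟨li x, mem_range.2 (by omega), lt_ext rfl h.symm h5.symm⟩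
      · right
        exact ⟨li x, mem_Icc.2 ⟨(h3 h).1, h1⟩, lt_ext rfl h.symm h5.symm⟩
    · rintro (⟨i, h, rfl⟩ | ⟨i, h, rfl⟩)
      · rw [mem_range] at h
        refine ⟨⟨by simp; omega, by simp; omega, by simp⟩, rfl⟩
      · rw [mem_Icc] at h
        refine ⟨⟨by simp; omega, by simp; omega, by simp; omega⟩, rfl⟩
  rw [this, card_union_of_disjoint, card_image_of_injective, card_image_of_injective, card_range,
    Nat.card_Icc]
  · omega
  · intro i j h; exact congrArg li h
  · intro i j h; exact congrArg li h
  · rw [disjoint_left]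
    intro x hx hx'
    rw [mem_image] at hx hx'
    obtain ⟨i, _, rfl⟩ := hx
    obtain ⟨j, _, h⟩ := hx'
    have := congrArg ls h
    simp at this

lemma card_S (m : ℕ) : (S m).card = (m + 1) * (m + 1) + m * m := by
  unfold S
  rw [card_union_of_disjoint, card_image_of_injective, card_image_of_injective, card_product,
    card_product, card_range, Nat.card_Icc]
  · simp
  · intro p q h
    exact Prod.ext (congrArg li h) (congrArg lj h)
  · intro p q h
    exact Prod.ext (congrArg li h) (congrArg lj h)
  · rw [disjoint_left]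
    intro x hx hx'
    rw [mem_image] at hx hx'
    obtain ⟨i, _, rfl⟩ := hx
    obtain ⟨j, _, h⟩ := hx'
    have := congrArg ls h
    simp at this

lemma card_free (m : ℕ) : ((S m).filter (fun x => ¬ star x = x)).card = 2 * m ^ 2 := by
  have h := card_filter_add_card_filter_not (s := S m) (fun x => star x = x)
  rw [card_fix, card_S] at h
  nlinarith

/-! ### monotone words -/

lemma mono_eq {α : Type*} [LinearOrder α] {n : ℕ} {f g : Fin n → α} (hf : Monotone f)
    (hg : Monotone g) (h : ∀ c, (univ.filter (fun a => f a = c)).card =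
      (univ.filter (fun a => g a = c)).card) : f = g := by
  have hcount : ∀ c, (univ.filter (fun a => f a ≤ c)).card =
      (univ.filter (fun a => g a ≤ c)).card := by
    intro c
    let V : Finset α := (univ.image f ∪ univ.image g).filter (· ≤ c)
    have hsum : ∀ (f' : Fin n → α), (∀ a, f' a ∈ univ.image f ∪ univ.image g) →
        (univ.filter (fun b => f' b ≤ c)).card =
        ∑ v ∈ V, (univ.filter (fun b => f' b = v)).card := by
      intro f' hf'
      rw [card_eq_sum_card_fiberwise (f := f') (t := V)]
      · apply sum_congr rfl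
        intro v hv
        congr 1
        ext b
        simp only [mem_filter, mem_univ, true_and]
        have := (mem_filter.1 hv).2
        constructor
        · rintro ⟨_, h2⟩; exact h2
        · intro h2; exact ⟨by rw [h2]; exact this, h2⟩
      · intro b hb
        exact mem_coe.2 (mem_filter.2 ⟨hf' b, (mem_filter.1 (mem_coe.1 hb)).2⟩)
    rw [hsum f (fun a => mem_union_left _ (mem_image_of_mem _ (mem_univ _))),
      hsum g (fun a => mem_union_right _ (mem_image_of_mem _ (mem_univ _)))]
    exact sum_congr rfl (fun v _ => h v)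
  funext a
  apply le_antisymm
  · rw [← Tuple.lt_card_le_iff_apply_le_of_monotone hf, hcount,
      Tuple.lt_card_le_iff_apply_le_of_monotone hg]
  · rw [← Tuple.lt_card_le_iff_apply_le_of_monotone hg, ← hcount,
      Tuple.lt_card_le_iff_apply_le_of_monotone hf]

lemma exists_mono {α : Type*} [LinearOrder α] {n : ℕ} (A : Finset α) (M : α → ℕ)
    (h1 : A.sum M = n) (h2 : ∀ x, M x ≠ 0 → x ∈ A) :
    ∃ u : Fin n → α, Monotone u ∧ ∀ x, (univ.filter (fun a => u a = x)).card = M x := by
  have hc : Fintype.card (Σ x : A, Fin (M x.1)) = n := by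
    rw [Fintype.card_sigma]
    simp only [Fintype.card_fin]
    rw [← h1]
    exact Finset.sum_coe_sort A M
  let e := (Fintype.equivFinOfCardEq hc).symm
  let u0 : Fin n → α := fun a => (e a).1.1
  have h0 : ∀ x, (univ.filter (fun a => u0 a = x)).card = M x := by
    intro x
    by_cases hx : x ∈ A
    · rw [← Fintype.card_fin (M x), ← Fintype.card_coe]
      apply Fintype.card_congr
      refine Equiv.ofBijective (fun a => Fin.cast (by
        have := (mem_filter.1 a.2).2
        exact congrArg M this) (e a.1).2) ⟨?_, ?_⟩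
      · rintro ⟨a, ha⟩ ⟨b, hb⟩ hab
        have h3 := (mem_filter.1 ha).2
        have h4 := (mem_filter.1 hb).2
        apply Subtype.ext
        apply e.injective
        have h5 : (e a).1 = (e b).1 := Subtype.ext (h3.trans h4.symm)
        apply Sigma.ext h5
        have hab' : ((e a).2 : ℕ) = ((e b).2 : ℕ) := by
          have := congrArg (fun z : Fin (M x) => (z : ℕ)) hab
          simpa using this
        refine (Fin.heq_ext_iff ?_).2 hab'
        rw [h5]
      · intro k
        refine ⟨⟨e.symm ⟨⟨x, hx⟩, k⟩, ?_⟩, ?_⟩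
        · rw [mem_filter]
          refine ⟨mem_univ _, ?_⟩
          simp only [u0, Equiv.apply_symm_apply]
        · apply Fin.ext
          exact congrArg (fun q : (Σ x : A, Fin (M x.1)) => (q.2 : ℕ))
            (Equiv.apply_symm_apply e ⟨⟨x, hx⟩, k⟩)
    · have : M x = 0 := by
        by_contra h
        exact hx (h2 x h)
      rw [this, card_eq_zero, filter_eq_empty_iff]
      intro a _ ha
      exact hx (ha ▸ (e a).1.2)
  refine ⟨u0 ∘ Tuple.sort u0, Tuple.monotone_sort u0, fun x => ?_⟩
  rw [← h0 x]
  apply card_nbij' (fun a => Tuple.sort u0 a) (fun a => (Tuple.sort u0).symm a)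
  · intro a ha
    have := (mem_filter.1 (mem_coe.1 ha)).2
    exact mem_coe.2 (mem_filter.2 ⟨mem_univ _, this⟩)
  · intro a ha
    have := (mem_filter.1 (mem_coe.1 ha)).2
    exact mem_coe.2 (mem_filter.2 ⟨mem_univ _, by simpa using this⟩)
  · intro a _; simp
  · intro a _; simp

/-! ### the word of a signed involution with a compatible sequence -/

variable {n : ℕ}

def word (w : SI n) (f : Fin n → ℕ) (a : Fin n) : Lt := mk (f a) (w.1.2 a) (f (w.1.1 a))

lemma word_inv (w : SI n) (f : Fin n → ℕ) (a : Fin n) :
    word w f (w.1.1 a) = star (word w f a) := by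
  unfold word star
  rw [w.2.1, w.2.2]
  rfl

lemma sorted_word {w : SI n} {f : Fin n → ℕ} (hf : Cp (Des false w) f) :
    (∀ a b : Fin n, a < b → f a = f b → K n false (w.1.1 a) (w.1.2 a) <
      K n false (w.1.1 b) (w.1.2 b)) ∧ ∀ a : Fin n, f a = 0 → w.1.2 a = true := by
  let D : Finset ℕ := (range n).filter (fun i => ext f i < ext f (i + 1))
  have hD : Des false w ⊆ D := by
    intro i hi
    have hin : i < n := by
      have := (mem_filter.1 hi).1
      exact mem_range.1 this
    refine mem_filter.2 ⟨mem_range.2 hin, ?_⟩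
    have h1 := hf i hin
    unfold eps at h1
    rw [if_pos hi] at h1
    omega
  obtain ⟨h1, h2⟩ := sorted_of_des hD
  constructor
  · intro a b hab hfab
    apply h1 a b hab
    unfold bl
    congr 1
    apply filter_congr
    intro d h3
    constructor
    · intro h4
      exact h4.trans (Fin.le_def.1 hab.le)
    · intro h4
      by_contra h5
      have h6 := (mem_filter.1 h3).2
      have h7 : ext f (a.1 + 1) ≤ ext f d := hf.mono (by omega) (by have := b.2; omega)
      have h8 : ext f (d + 1) ≤ ext f (b.1 + 1) := hf.mono (by omega) (by have := b.2; omega)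
      rw [ext_succ] at h7 h8
      omega
  · intro a ha
    apply h2
    unfold bl
    rw [card_eq_zero, filter_eq_empty_iff]
    intro d hd hda
    have h6 := (mem_filter.1 hd).2
    have h8 : ext f (d + 1) ≤ ext f (a.1 + 1) := hf.mono (by omega) (by have := a.2; omega)
    rw [ext_succ] at h8
    omega

lemma K_lt {b b' : Fin n} {e e' : Bool} (h : K n false b e < K n false b' e') :
    e < e' ∨ (e = e' ∧ b < b') := by
  have h1 := b.2
  have h2 := b'.2
  cases e <;> cases e' <;> simp only [K, if_true, Bool.false_eq_true, if_false] at h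
  · right; refine ⟨rfl, ?_⟩; rw [Fin.lt_def]; omega
  · left; decide
  · omega
  · right; refine ⟨rfl, ?_⟩; rw [Fin.lt_def]; omega

lemma lt_K {b b' : Fin n} {e e' : Bool} (h : e < e' ∨ (e = e' ∧ b < b')) :
    K n false b e < K n false b' e' := by
  have h1 := b.2
  have h2 := b'.2
  rcases h with h | ⟨h, h'⟩
  · have he : e = false := by revert h; cases e <;> cases e' <;> decide
    have he' : e' = true := by revert h; cases e <;> cases e' <;> decide
    subst he he'
    simp only [K, if_true, Bool.false_eq_true, if_false]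
    omega
  · subst h
    rw [Fin.lt_def] at h'
    cases e <;> simp only [K, if_true, Bool.false_eq_true, if_false] <;> omega

lemma word_mono {w : SI n} {f : Fin n → ℕ} (hf : Cp (Des false w) f) : Monotone (word w f) := by
  intro a b hab
  rcases eq_or_lt_of_le hab with h | hlt
  · rw [h]
  · rw [le_iff]
    simp only [word, li_mk, ls_mk, lj_mk]
    rcases lt_or_eq_of_le (hf.mono' hab) with h | h
    · exact Or.inl h
    · right
      refine ⟨h, ?_⟩
      rcases K_lt ((sorted_word hf).1 a b hlt h) with h1 | ⟨h1, h2⟩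
      · exact Or.inl h1
      · exact Or.inr ⟨h1, hf.mono' h2.le⟩

/-- the matrix -/
def mat (w : SI n) (f : Fin n → ℕ) (x : Lt) : ℕ := (univ.filter (fun a => word w f a = x)).card

lemma mat_mem {m : ℕ} {w : SI n} {f : Fin n → ℕ} (hf : f ∈ T n m (Des false w)) :
    mat w f ∈ Mt (S m) star n := by
  obtain ⟨h1, h2⟩ := mem_T.1 hf
  have hS : ∀ a, word w f a ∈ S m := by
    intro a
    refine mem_S.2 ⟨h1 _, h1 _, fun h => ?_⟩
    simp only [word, li_mk, ls_mk, lj_mk] at h ⊢
    constructor
    · by_contra hc
      have := (sorted_word h2).2 a (by omega)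
      rw [h] at this
      exact absurd this (by decide)
    · by_contra hc
      have := (sorted_word h2).2 (w.1.1 a) (by omega)
      rw [w.2.2, h] at this
      exact absurd this (by decide)
  refine mem_Mt.2 ⟨?_, ?_, ?_⟩
  · unfold mat
    rw [← card_eq_sum_card_fiberwise (fun a _ => mem_coe.2 (hS a))]
    simp
  · intro x hx
    unfold mat at hx
    rw [← Nat.pos_iff_ne_zero, card_pos] at hx
    obtain ⟨a, ha⟩ := hx
    rw [← (mem_filter.1 ha).2]
    exact hS a
  · intro x
    unfold mat
    apply card_nbij' (fun a => w.1.1 a) (fun a => w.1.1 a)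
    · intro a ha
      have := (mem_filter.1 (mem_coe.1 ha)).2
      exact mem_coe.2 (mem_filter.2 ⟨mem_univ _, by rw [word_inv, this, star_star]⟩)
    · intro a ha
      have := (mem_filter.1 (mem_coe.1 ha)).2
      exact mem_coe.2 (mem_filter.2 ⟨mem_univ _, by rw [word_inv, this]⟩)
    · intro a _; exact w.2.1 a
    · intro a _; exact w.2.1 a

/-- the involution as a permutation -/
def prm (w : SI n) : Equiv.Perm (Fin n) := Function.Involutive.toPerm w.1.1 w.2.1

lemma prm_apply (w : SI n) (a : Fin n) : prm w a = w.1.1 a := rfl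

lemma prm_eq_sort {w : SI n} {f : Fin n → ℕ} (hf : Cp (Des false w) f) :
    prm w = Tuple.sort (fun a => star (word w f a)) := by
  rw [Tuple.eq_sort_iff]
  have h1 : ((fun a => star (word w f a)) ∘ prm w) = word w f := by
    funext a
    simp only [Function.comp, prm_apply]
    rw [word_inv, star_star]
  constructor
  · rw [h1]; exact word_mono hf
  · intro i j hij h
    have h2 : word w f i = word w f j := by
      have e1 := congrFun h1 i
      have e2 := congrFun h1 j
      simp only [Function.comp] at e1 e2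
      rw [← e1, ← e2, h]
    have h3 : f i = f j := congrArg li h2
    have h4 : w.1.2 i = w.1.2 j := congrArg ls h2
    rcases K_lt ((sorted_word hf).1 i j hij h3) with h5 | ⟨_, h5⟩
    · rw [h4] at h5; exact absurd h5 (lt_irrefl _)
    · exact h5

lemma mat_inj {m m' : ℕ} {w w' : SI n} {f f' : Fin n → ℕ} (hf : f ∈ T n m (Des false w))
    (hf' : f' ∈ T n m' (Des false w')) (h : mat w f = mat w' f') : w = w' ∧ f = f' := by
  obtain ⟨_, h2⟩ := mem_T.1 hf
  obtain ⟨_, h2'⟩ := mem_T.1 hf'
  have hw : word w f = word w' f' := mono_eq (word_mono h2) (word_mono h2') (fun c => congrFun h c)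
  have hff : f = f' := by
    funext a
    exact congrArg li (congrFun hw a)
  refine ⟨?_, hff⟩
  have hs : ∀ a, w.1.2 a = w'.1.2 a := fun a => congrArg ls (congrFun hw a)
  have hp : prm w = prm w' := by rw [prm_eq_sort h2, prm_eq_sort h2', hw]
  apply Subtype.ext
  apply Prod.ext
  · funext a
    have := congrArg (fun σ : Equiv.Perm (Fin n) => σ a) hp
    exact this
  · funext a; exact hs a

lemma mat_surj {m : ℕ} {M : Lt → ℕ} (hM : M ∈ Mt (S m) star n) :
    ∃ (w : SI n) (f : Fin n → ℕ), f ∈ T n m (Des false w) ∧ mat w f = M := by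
  obtain ⟨h1, h2, h3⟩ := mem_Mt.1 hM
  obtain ⟨u, hu, huM⟩ := exists_mono (S m) M h1 h2
  have huS : ∀ a, u a ∈ S m := by
    intro a
    apply h2
    rw [← huM, ← Nat.pos_iff_ne_zero, card_pos]
    exact ⟨a, mem_filter.2 ⟨mem_univ _, rfl⟩⟩
  set v : Fin n → Lt := fun a => star (u a) with hv
  set σ := Tuple.sort v with hσ
  have hvσ : v ∘ σ = u := by
    apply mono_eq (Tuple.monotone_sort v) hu
    intro c
    rw [huM, ← h3, ← huM]
    apply card_nbij' (fun a => σ a) (fun a => σ.symm a)
    · intro a ha
      have := (mem_filter.1 (mem_coe.1 ha)).2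
      simp only [Function.comp, hv] at this
      refine mem_coe.2 (mem_filter.2 ⟨mem_univ _, ?_⟩)
      rw [← this, star_star]
    · intro a ha
      have := (mem_filter.1 (mem_coe.1 ha)).2
      refine mem_coe.2 (mem_filter.2 ⟨mem_univ _, ?_⟩)
      show star (u (σ (σ.symm a))) = c
      rw [Equiv.apply_symm_apply, this, star_star]
    · intro a _; simp
    · intro a _; simp
  have hst := (Tuple.eq_sort_iff.1 hσ).2
  have huσ : ∀ a, u (σ a) = star (u a) := by
    intro a
    have := congrFun hvσ a
    simp only [Function.comp, hv] at this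
    rw [← this, star_star]
  have hinv : σ.symm = Tuple.sort v := by
    rw [Tuple.eq_sort_iff]
    have h5 : v ∘ σ.symm = u := by
      funext a
      have := huσ (σ.symm a)
      rw [Equiv.apply_symm_apply] at this
      exact this.symm
    refine ⟨by rw [h5]; exact hu, ?_⟩
    intro i j hij h
    by_contra hc
    rw [not_lt] at hc
    have hne : σ.symm j ≠ σ.symm i := fun h' => hij.ne (σ.symm.injective h'.symm)
    have hlt := lt_of_le_of_ne hc hne
    have h6 : v (σ (σ.symm j)) = v (σ (σ.symm i)) := by
      rw [Equiv.apply_symm_apply, Equiv.apply_symm_apply]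
      have e1 : v (σ.symm i) = u i := congrFun h5 i
      have e2 : v (σ.symm j) = u j := congrFun h5 j
      show star (u j) = star (u i)
      rw [← e1, ← e2, h]
    have h7 := hst _ _ hlt h6
    rw [Equiv.apply_symm_apply, Equiv.apply_symm_apply] at h7
    exact absurd hij (not_lt.2 h7.le)
  have hσσ : ∀ a, σ (σ a) = a := by
    intro a
    have h5 : σ.symm = σ := by rw [hinv]
    have h6 : σ.symm (σ a) = a := Equiv.symm_apply_apply σ a
    rw [h5] at h6
    exact h6
  let w : SI n := ⟨(fun a => σ a, fun a => ls (u a)), by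
    refine ⟨hσσ, fun a => ?_⟩
    show ls (u (σ a)) = ls (u a)
    rw [huσ]; rfl⟩
  let f : Fin n → ℕ := fun a => li (u a)
  have hword : word w f = u := by
    funext a
    show mk (li (u a)) (ls (u a)) (li (u (σ a))) = u a
    rw [huσ]
    rfl
  have hfmono : ∀ a b : Fin n, a ≤ b → f a ≤ f b := by
    intro a b hab
    have := (le_iff _ _).1 (hu hab)
    show li (u a) ≤ li (u b)
    omega
  have hKlt : ∀ a b : Fin n, a < b → f a = f b → K n false (w.1.1 a) (w.1.2 a) <
      K n false (w.1.1 b) (w.1.2 b) := by
    intro a b hab hfab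
    apply lt_K
    have h5 := (le_iff _ _).1 (hu hab.le)
    have h6 : li (u a) = li (u b) := hfab
    rcases h5 with h5 | ⟨_, h5 | ⟨h5, h7⟩⟩
    · omega
    · exact Or.inl h5
    · right
      refine ⟨h5, ?_⟩
      show σ a < σ b
      rcases lt_or_eq_of_le h7 with h8 | h8
      · by_contra hc
        have h9 := hfmono (σ b) (σ a) (not_lt.1 hc)
        have e1 : f (σ a) = lj (u a) := by show li (u (σ a)) = _; rw [huσ]; rfl
        have e2 : f (σ b) = lj (u b) := by show li (u (σ b)) = _; rw [huσ]; rfl
        omega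
      · apply hst a b hab
        have e1 := congrFun hvσ a
        have e2 := congrFun hvσ b
        simp only [Function.comp] at e1 e2
        rw [e1, e2]
        exact lt_ext h6 h5 h8
  refine ⟨w, f, mem_T.2 ⟨fun a => (mem_S.1 (huS a)).1, ?_⟩, ?_⟩
  · intro i hi
    have hle : ext f i ≤ ext f (i + 1) := by
      rcases Nat.eq_zero_or_pos i with h0 | h0
      · subst h0; rw [ext_zero]; exact Nat.zero_le _
      · have e1 := ext_succ f ⟨i - 1, by omega⟩
        have e2 := ext_succ f ⟨i, hi⟩
        simp only at e1 e2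
        rw [show i - 1 + 1 = i by omega] at e1
        rw [e1, e2]
        apply hfmono
        rw [Fin.le_def]
        simp
    unfold eps
    split_ifs with hdes
    · have hlt : kv false w (i + 1) < kv false w i := (mem_filter.1 hdes).2
      have e2 := ext_succ f ⟨i, hi⟩
      have k2 := kv_succ false w ⟨i, hi⟩
      simp only at e2 k2
      rcases Nat.eq_zero_or_pos i with h0 | h0
      · subst h0
        rw [kv_zero, k2] at hlt
        have hs : w.1.2 ⟨0, hi⟩ = false := by
          by_contra hc
          have := K_pos (n := n) (o := false) (b := w.1.1 ⟨0, hi⟩) (by simpa using hc)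
          omega
        have h5 := ((mem_S.1 (huS ⟨0, hi⟩)).2.2 hs).1
        rw [ext_zero, e2]
        exact h5
      · have e1 := ext_succ f ⟨i - 1, by omega⟩
        have k1 := kv_succ false w ⟨i - 1, by omega⟩
        simp only at e1 k1
        rw [show i - 1 + 1 = i by omega] at e1 k1
        by_contra hc
        have heq : f ⟨i - 1, by omega⟩ = f ⟨i, hi⟩ := by omega
        have := hKlt ⟨i - 1, by omega⟩ ⟨i, hi⟩ (by rw [Fin.lt_def]; simp; omega) heq
        omega
    · omega
  · funext x
    unfold mat
    rw [hword]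
    exact huM x

/-- the count -/
theorem card_pairs (n m : ℕ) :
    ∑ w : SI n, (m + n - (Des false w).card).choose n = (Mt (S m) star n).card := by
  have h1 : ∀ w : SI n, (m + n - (Des false w).card).choose n = (T n m (Des false w)).card := by
    intro w
    rw [card_T]
    congr 2
    unfold dn
    rw [filter_true_of_mem]
    intro i hi
    exact mem_range.1 (mem_filter.1 hi).1
  rw [sum_congr rfl (fun w _ => h1 w), ← card_sigma]
  apply card_bij (fun p _ => mat p.1 p.2)
  · intro p hp
    exact mat_mem (mem_sigma.1 hp).2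
  · intro p hp q hq h
    obtain ⟨e1, e2⟩ := mat_inj (mem_sigma.1 hp).2 (mem_sigma.1 hq).2 h
    exact Sigma.ext e1 (heq_of_eq e2)
  · intro M hM
    obtain ⟨w, f, hf, h⟩ := mat_surj hM
    exact ⟨⟨w, f⟩, mem_sigma.2 ⟨mem_univ _, hf⟩, h⟩

end Pool.Agent.Q162.Gam
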