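import Mathlib
import Pool.Agent.Q162.Gam.Bij

/-!
The polynomial recurrence for the descents on signed involutions.
-/

set_option autoImplicit false

open Finset Polynomial Q166.BInv

namespace Pool.Agent.Q162.Gam

/-- the number of symmetric matrices -/
noncomputable def cc (n m : ℕ) : ℚ := (Mt (S m) star n).card

lemma cc_zero (m : ℕ) : cc 0 m = 1 := by
  unfold cc; rw [card_Mt_zero]; norm_num

lemma cc_one (m : ℕ) : cc 1 m = 2 * m + 1 := by
  unfold cc
  rw [card_Mt_one _ _ star_star star_mem, card_fix]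
  push_cast
  ring

lemma cc_rec (n m : ℕ) : 2 * ((n : ℚ) + 2) * cc (n + 2) m =
    2 * ((2 * m + 1) * cc (n + 1) m) + (2 * m + 1) * ((2 * m + 1) * cc n m) +
      (2 * n + 1) * cc n m := by
  have h := card_Mt_rec (S m) star star_star star_mem n
  rw [card_fix, card_free] at h
  have h' : (((n + 2) * (Mt (S m) star (n + 2)).card : ℕ) : ℚ) = _ := congrArg Nat.cast h
  push_cast at h'
  unfold cc
  linear_combination 2 * h'

/-- the linear functional -/
noncomputable def Lf (n m : ℕ) (p : ℚ[X]) : ℚ :=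
  ∑ d ∈ range (n + 1), p.coeff d * ((m + n - d).choose n : ℚ)

lemma Lf_add (n m : ℕ) (p q : ℚ[X]) : Lf n m (p + q) = Lf n m p + Lf n m q := by
  unfold Lf
  rw [← sum_add_distrib]
  exact sum_congr rfl (fun d _ => by rw [coeff_add]; ring)

lemma Lf_sub (n m : ℕ) (p q : ℚ[X]) : Lf n m (p - q) = Lf n m p - Lf n m q := by
  unfold Lf
  rw [← sum_sub_distrib]
  exact sum_congr rfl (fun d _ => by rw [coeff_sub]; ring)

lemma Lf_C_mul (n m : ℕ) (a : ℚ) (p : ℚ[X]) : Lf n m (C a * p) = a * Lf n m p := by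
  unfold Lf
  rw [mul_sum]
  exact sum_congr rfl (fun d _ => by rw [coeff_C_mul]; ring)

lemma Lf_inj {n : ℕ} {p : ℚ[X]} (hp : p.natDegree ≤ n) (h : ∀ m, Lf n m p = 0) : p = 0 := by
  have key : ∀ d, d ≤ n → p.coeff d = 0 := by
    intro d
    induction d using Nat.strong_induction_on with
    | _ d ih =>
      intro hd
      have h1 := h d
      unfold Lf at h1
      rw [sum_eq_single d] at h1
      · rw [show d + n - d = n by omega, Nat.choose_self] at h1
        simpa using h1
      · intro e he hne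
        rw [mem_range] at he
        rcases lt_or_gt_of_ne hne with h2 | h2
        · rw [ih e h2 (by omega), zero_mul]
        · rw [Nat.choose_eq_zero_of_lt (by omega)]
          simp
      · intro he
        rw [mem_range] at he
        omega
  ext d
  rw [coeff_zero]
  by_cases hd : d ≤ n
  · exact key d hd
  · exact coeff_eq_zero_of_natDegree_lt (by omega)

/-- the differential operator -/
noncomputable def E (n : ℕ) (p : ℚ[X]) : ℚ[X] :=
  C 2 * (X * (1 - X) * derivative p) + (1 + C (2 * (n : ℚ) + 1) * X) * p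

lemma coeff_E_zero (n : ℕ) (p : ℚ[X]) : (E n p).coeff 0 = p.coeff 0 := by
  unfold E
  rw [coeff_add, coeff_C_mul, mul_assoc X, coeff_X_mul_zero, mul_zero, zero_add, add_mul, one_mul,
    coeff_add, mul_assoc (C _) X p, coeff_C_mul, coeff_X_mul_zero, mul_zero, add_zero]

lemma coeff_E_succ (n : ℕ) (p : ℚ[X]) (d : ℕ) : (E n p).coeff (d + 1) =
    (2 * ((d : ℚ) + 1) + 1) * p.coeff (d + 1) + (2 * n + 1 - 2 * d) * p.coeff d := by
  have h1 : E n p = C 2 * (X * derivative p) - C 2 * (X * (X * derivative p)) + p +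
      C (2 * (n : ℚ) + 1) * (X * p) := by
    unfold E; ring
  have h2 : (X * derivative p).coeff d = d * p.coeff d := by
    cases d with
    | zero => rw [coeff_X_mul_zero]; simp
    | succ d => rw [coeff_X_mul, coeff_derivative]; push_cast; ring
  rw [h1, coeff_add, coeff_add, coeff_sub, coeff_C_mul, coeff_C_mul, coeff_C_mul, coeff_X_mul,
    coeff_X_mul, coeff_X_mul, coeff_derivative, h2]
  push_cast
  ring

lemma E_add (n : ℕ) (p q : ℚ[X]) : E n (p + q) = E n p + E n q := by
  unfold E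
  rw [derivative_add]
  ring

lemma E_C_mul (n : ℕ) (a : ℚ) (p : ℚ[X]) : E n (C a * p) = C a * E n p := by
  unfold E
  rw [derivative_C_mul]
  ring

lemma E_zero (n : ℕ) : E n 0 = 0 := by
  unfold E; simp

lemma E_sum {ι : Type*} (n : ℕ) (s : Finset ι) (f : ι → ℚ[X]) :
    E n (∑ i ∈ s, f i) = ∑ i ∈ s, E n (f i) := by
  classical
  induction s using Finset.induction_on with
  | empty => simp [E_zero]
  | insert a s ha ih => rw [sum_insert ha, sum_insert ha, E_add, ih]

lemma deg_E {n : ℕ} {p : ℚ[X]} (hp : p.natDegree ≤ n) : (E n p).natDegree ≤ n + 1 := by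
  rw [natDegree_le_iff_coeff_eq_zero]
  intro d hd
  obtain ⟨e, rfl⟩ : ∃ e, d = e + 1 := ⟨d - 1, by omega⟩
  rw [coeff_E_succ, coeff_eq_zero_of_natDegree_lt (by omega : p.natDegree < e + 1),
    coeff_eq_zero_of_natDegree_lt (by omega : p.natDegree < e)]
  ring

lemma coeff_oneSub_zero (p : ℚ[X]) : ((1 - X) * p).coeff 0 = p.coeff 0 := by
  rw [sub_mul, one_mul, coeff_sub, coeff_X_mul_zero, sub_zero]

lemma coeff_oneSub_succ (p : ℚ[X]) (d : ℕ) :
    ((1 - X) * p).coeff (d + 1) = p.coeff (d + 1) - p.coeff d := by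
  rw [sub_mul, one_mul, coeff_sub, coeff_X_mul]

lemma deg_oneSub {n : ℕ} {p : ℚ[X]} (hp : p.natDegree ≤ n) :
    ((1 - X) * p).natDegree ≤ n + 1 := by
  rw [natDegree_le_iff_coeff_eq_zero]
  intro d hd
  obtain ⟨e, rfl⟩ : ∃ e, d = e + 1 := ⟨d - 1, by omega⟩
  rw [coeff_oneSub_succ, coeff_eq_zero_of_natDegree_lt (by omega : p.natDegree < e + 1),
    coeff_eq_zero_of_natDegree_lt (by omega : p.natDegree < e)]
  ring

lemma Lf_oneSub {n m : ℕ} {p : ℚ[X]} (hp : p.natDegree ≤ n) :
    Lf (n + 1) m ((1 - X) * p) = Lf n m p := by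
  unfold Lf
  rw [sum_range_succ', coeff_oneSub_zero,
    sum_congr rfl (fun d _ => by rw [coeff_oneSub_succ, sub_mul])]
  rw [sum_sub_distrib]
  have h1 : ∑ d ∈ range (n + 1), p.coeff (d + 1) * ((m + (n + 1) - (d + 1)).choose (n + 1) : ℚ) +
      p.coeff 0 * ((m + (n + 1) - 0).choose (n + 1) : ℚ) =
      ∑ d ∈ range (n + 1), p.coeff d * ((m + (n + 1) - d).choose (n + 1) : ℚ) := by
    rw [← sum_range_succ' (fun d => p.coeff d * ((m + (n + 1) - d).choose (n + 1) : ℚ)),
      sum_range_succ, coeff_eq_zero_of_natDegree_lt (by omega : p.natDegree < n + 1)]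
    ring
  rw [sub_add_eq_add_sub, h1, ← sum_sub_distrib]
  apply sum_congr rfl
  intro d hd
  rw [mem_range] at hd
  have h2 : (m + (n + 1) - d).choose (n + 1) =
      (m + n - d).choose n + (m + n - d).choose (n + 1) := by
    rw [show m + (n + 1) - d = (m + n - d) + 1 by omega, Nat.choose_succ_succ']
  rw [h2, show m + (n + 1) - (d + 1) = m + n - d by omega]
  push_cast
  ring

lemma key_choose (n m d : ℕ) (hd : d ≤ n) :
    (2 * (d : ℚ) + 1) * ((m + (n + 1) - d).choose (n + 1) : ℚ) +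
      (2 * n + 1 - 2 * d) * ((m + n - d).choose (n + 1) : ℚ) =
      (2 * m + 1) * ((m + n - d).choose n : ℚ) := by
  have h2 : (m + (n + 1) - d).choose (n + 1) =
      (m + n - d).choose n + (m + n - d).choose (n + 1) := by
    rw [show m + (n + 1) - d = (m + n - d) + 1 by omega, Nat.choose_succ_succ']
  rw [h2]
  push_cast
  by_cases h : d ≤ m
  · have h3 : (m + n - d).choose (n + 1) * (n + 1) = (m + n - d).choose n * (m - d) := by
      rw [Nat.choose_succ_right_eq]
      congr 1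
      omega
    have h4 : (((m + n - d).choose (n + 1) * (n + 1) : ℕ) : ℚ) = _ := congrArg Nat.cast h3
    push_cast [Nat.cast_sub h] at h4
    linear_combination 2 * h4
  · rw [Nat.choose_eq_zero_of_lt (by omega : m + n - d < n),
      Nat.choose_eq_zero_of_lt (by omega : m + n - d < n + 1)]
    simp

lemma Lf_E {n m : ℕ} {p : ℚ[X]} (hp : p.natDegree ≤ n) :
    Lf (n + 1) m (E n p) = (2 * m + 1) * Lf n m p := by
  unfold Lf
  rw [sum_range_succ', coeff_E_zero,
    sum_congr rfl (fun d _ => by rw [coeff_E_succ, add_mul]), sum_add_distrib]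
  have h1 : ∑ d ∈ range (n + 1), (2 * ((d : ℚ) + 1) + 1) * p.coeff (d + 1) *
      ((m + (n + 1) - (d + 1)).choose (n + 1) : ℚ) +
      p.coeff 0 * ((m + (n + 1) - 0).choose (n + 1) : ℚ) =
      ∑ d ∈ range (n + 1), (2 * (d : ℚ) + 1) * p.coeff d *
        ((m + (n + 1) - d).choose (n + 1) : ℚ) := by
    have h2 := sum_range_succ' (fun d : ℕ => (2 * (d : ℚ) + 1) * p.coeff d *
        ((m + (n + 1) - d).choose (n + 1) : ℚ)) (n + 1)
    rw [sum_range_succ, coeff_eq_zero_of_natDegree_lt (by omega : p.natDegree < n + 1)] at h2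
    push_cast at h2 ⊢
    linear_combination -h2
  rw [add_right_comm, h1, ← sum_add_distrib, mul_sum]
  apply sum_congr rfl
  intro d hd
  rw [mem_range] at hd
  have h3 := key_choose n m d (by omega)
  rw [show m + (n + 1) - (d + 1) = m + n - d by omega]
  linear_combination p.coeff d * h3

/-- the descent polynomial of the signed involutions -/
noncomputable def IQ (n : ℕ) : ℚ[X] := ∑ w : SI n, X ^ (Des false w).card

lemma card_Des_le {n : ℕ} (o : Bool) (w : SI n) : (Des o w).card ≤ n := by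
  unfold Des
  have := card_filter_le (range n) (fun i => kv o w (i + 1) < kv o w i)
  rwa [card_range] at this

lemma deg_IQ (n : ℕ) : (IQ n).natDegree ≤ n := by
  unfold IQ
  apply natDegree_sum_le_of_forall_le
  intro w _
  exact (natDegree_X_pow_le _).trans (card_Des_le false w)

lemma Lf_X_pow {n d : ℕ} (m : ℕ) (hd : d ≤ n) :
    Lf n m (X ^ d) = ((m + n - d).choose n : ℚ) := by
  unfold Lf
  rw [sum_eq_single d]
  · rw [coeff_X_pow_self, one_mul]
  · intro e _ hne
    rw [coeff_X_pow, if_neg hne, zero_mul]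
  · intro h
    rw [mem_range] at h
    omega

lemma Lf_sum {ι : Type*} (n m : ℕ) (s : Finset ι) (f : ι → ℚ[X]) :
    Lf n m (∑ i ∈ s, f i) = ∑ i ∈ s, Lf n m (f i) := by
  unfold Lf
  rw [sum_comm]
  apply sum_congr rfl
  intro d _
  rw [finset_sum_coeff, sum_mul]

lemma Lf_IQ (n m : ℕ) : Lf n m (IQ n) = cc n m := by
  unfold IQ
  rw [Lf_sum, sum_congr rfl (fun w _ => Lf_X_pow m (card_Des_le false w))]
  unfold cc
  rw [← card_pairs]
  push_cast
  rfl

lemma IQ_zero : IQ 0 = 1 := by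
  rw [← sub_eq_zero]
  apply Lf_inj (n := 0)
  · exact (natDegree_sub_le _ _).trans (max_le (deg_IQ 0) (by simp))
  · intro m
    rw [Lf_sub, Lf_IQ, cc_zero, ← pow_zero (X : ℚ[X]), Lf_X_pow m le_rfl]
    simp

lemma IQ_one : IQ 1 = 1 + X := by
  rw [← sub_eq_zero]
  apply Lf_inj (n := 1)
  · refine (natDegree_sub_le _ _).trans (max_le (deg_IQ 1) ?_)
    refine (natDegree_add_le _ _).trans (max_le (by simp) (by simp))
  · intro m
    have h0 : Lf 1 m (1 : ℚ[X]) = (m : ℚ) + 1 := by
      rw [← pow_zero (X : ℚ[X]), Lf_X_pow m (by omega)]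
      simp
    have h1 : Lf 1 m (X : ℚ[X]) = (m : ℚ) := by
      have := Lf_X_pow (n := 1) (d := 1) m le_rfl
      rw [pow_one] at this
      rw [this]
      simp
    rw [Lf_sub, Lf_IQ, cc_one, Lf_add, h0, h1]
    ring

theorem IQ_rec (n : ℕ) : C (2 * ((n : ℚ) + 2)) * IQ (n + 2) =
    C 2 * E (n + 1) (IQ (n + 1)) + E (n + 1) (E n (IQ n)) +
      C (2 * (n : ℚ) + 1) * ((1 - X) * ((1 - X) * IQ n)) := by
  rw [← sub_eq_zero]
  apply Lf_inj (n := n + 2)
  · have hC : ∀ (a : ℚ) (p : ℚ[X]), p.natDegree ≤ n + 2 → (C a * p).natDegree ≤ n + 2 :=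
      fun a p h => (natDegree_C_mul_le a p).trans h
    refine (natDegree_sub_le _ _).trans (max_le (hC _ _ (deg_IQ _)) ?_)
    refine (natDegree_add_le _ _).trans (max_le ((natDegree_add_le _ _).trans (max_le ?_ ?_)) ?_)
    · exact hC _ _ (deg_E (deg_IQ _))
    · exact deg_E (deg_E (deg_IQ _))
    · exact hC _ _ (deg_oneSub (deg_oneSub (deg_IQ _)))
  · intro m
    rw [Lf_sub, Lf_add, Lf_add, Lf_C_mul, Lf_C_mul, Lf_C_mul, Lf_E (deg_IQ _),
      Lf_E (deg_E (deg_IQ _)), Lf_E (deg_IQ _), Lf_oneSub (deg_oneSub (deg_IQ _)),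
      Lf_oneSub (deg_IQ _), Lf_IQ, Lf_IQ, Lf_IQ, cc_rec]
    ring

end Pool.Agent.Q162.Gam
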