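import Mathlib
import Pool.Agent.Q162.Gam.Poly

/-!
Nonnegativity of the gamma coefficients.
-/

set_option autoImplicit false

open Finset Polynomial Q166.BInv

namespace Pool.Agent.Q162.Gam

/-- basis polynomials -/
noncomputable def Bp (n k : ℕ) : ℚ[X] := X ^ k * (1 + X) ^ (n - 2 * k)

/-- shift -/
def sh (g : ℕ → ℚ) : ℕ → ℚ
  | 0 => 0
  | k + 1 => g k

def Eg (n : ℕ) (g : ℕ → ℚ) (k : ℕ) : ℚ :=
  (2 * k + 1) * g k + 4 * (n + 2 - 2 * k) * sh g k

def Rg (g : ℕ → ℚ) (k : ℕ) : ℚ := g k - 4 * sh g k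

noncomputable def Qp (n : ℕ) (g : ℕ → ℚ) : ℚ[X] := ∑ k ∈ range (n + 1), C (g k) * Bp n k

def Supp (n : ℕ) (g : ℕ → ℚ) : Prop := ∀ k, n < 2 * k → g k = 0

lemma X_mul_deriv_pow (k : ℕ) : X * derivative (X ^ k : ℚ[X]) = C (k : ℚ) * X ^ k := by
  cases k with
  | zero => simp
  | succ k =>
    rw [derivative_X_pow, Nat.add_sub_cancel, pow_succ]
    push_cast
    ring

lemma E_Bp {n k : ℕ} (hk : 2 * k ≤ n) : E n (Bp n k) =
    C (2 * (k : ℚ) + 1) * Bp (n + 1) k + C (4 * ((n : ℚ) - 2 * k)) * Bp (n + 1) (k + 1) := by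
  obtain ⟨j, rfl⟩ : ∃ j, n = 2 * k + j := ⟨n - 2 * k, by omega⟩
  have hX := X_mul_deriv_pow k
  unfold E Bp
  rw [show 2 * k + j - 2 * k = j by omega, show 2 * k + j + 1 - 2 * k = j + 1 by omega,
    show 2 * k + j + 1 - 2 * (k + 1) = j - 1 by omega]
  cases j with
  | zero =>
    simp only [pow_zero, mul_one, add_zero, zero_add, pow_one]
    have h1 : C 2 * (X * (1 - X) * derivative (X ^ k : ℚ[X])) =
        C 2 * ((1 - X) * (X * derivative (X ^ k : ℚ[X]))) := by ring
    rw [h1, hX]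
    push_cast
    simp only [map_add, map_mul, map_sub, map_one, map_ofNat, map_natCast]
    ring
  | succ j =>
    rw [Nat.add_sub_cancel, derivative_mul]
    have h2 : derivative ((1 + X : ℚ[X]) ^ (j + 1)) = C ((j : ℚ) + 1) * (1 + X) ^ j := by
      rw [derivative_pow_succ, derivative_add, derivative_one, derivative_X, zero_add, mul_one]
    rw [h2]
    have h1 : C 2 * (X * (1 - X) * (derivative (X ^ k : ℚ[X]) * (1 + X) ^ (j + 1) +
        X ^ k * (C ((j : ℚ) + 1) * (1 + X) ^ j))) =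
        C 2 * ((1 - X) * ((X * derivative (X ^ k : ℚ[X])) * (1 + X) ^ (j + 1) +
        X * X ^ k * (C ((j : ℚ) + 1) * (1 + X) ^ j))) := by ring
    rw [h1, hX]
    push_cast
    simp only [map_add, map_mul, map_sub, map_one, map_ofNat, map_natCast]
    ring

lemma oneSub_Bp {n k : ℕ} (hk : 2 * k ≤ n) : (1 - X) * ((1 - X) * Bp n k) =
    Bp (n + 2) k - C 4 * Bp (n + 2) (k + 1) := by
  obtain ⟨j, rfl⟩ : ∃ j, n = 2 * k + j := ⟨n - 2 * k, by omega⟩
  unfold Bp
  rw [show 2 * k + j - 2 * k = j by omega, show 2 * k + j + 2 - 2 * k = j + 2 by omega,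
    show 2 * k + j + 2 - 2 * (k + 1) = j by omega]
  simp only [map_ofNat]
  ring

lemma E_Qp {n : ℕ} {g : ℕ → ℚ} (hg : Supp n g) : E n (Qp n g) = Qp (n + 1) (Eg n g) := by
  unfold Qp
  rw [E_sum]
  have h1 : ∀ k ∈ range (n + 1), E n (C (g k) * Bp n k) =
      C ((2 * (k : ℚ) + 1) * g k) * Bp (n + 1) k +
      C (4 * ((n : ℚ) - 2 * k) * g k) * Bp (n + 1) (k + 1) := by
    intro k _
    rw [E_C_mul]
    by_cases hk : 2 * k ≤ n
    · rw [E_Bp hk]
      simp only [map_add, map_mul, map_sub, map_one, map_ofNat, map_natCast]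
      ring
    · rw [hg k (by omega)]
      simp
  rw [sum_congr rfl h1, sum_add_distrib]
  have h2 : ∀ k ∈ range (n + 1 + 1), C (Eg n g k) * Bp (n + 1) k =
      C ((2 * (k : ℚ) + 1) * g k) * Bp (n + 1) k +
      C (4 * ((n : ℚ) + 2 - 2 * k) * sh g k) * Bp (n + 1) k := by
    intro k _
    unfold Eg
    rw [map_add, add_mul]
  rw [sum_congr rfl h2, sum_add_distrib, sum_range_succ (fun k => C ((2 * (k : ℚ) + 1) * g k) *
    Bp (n + 1) k) (n + 1), hg (n + 1) (by omega), sum_range_succ' (fun k : ℕ =>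
    C (4 * ((n : ℚ) + 2 - 2 * k) * sh g k) * Bp (n + 1) k)]
  have h3 : ∀ k ∈ range (n + 1), C (4 * ((n : ℚ) + 2 - 2 * ((k + 1 : ℕ) : ℚ)) * sh g (k + 1)) *
      Bp (n + 1) (k + 1) = C (4 * ((n : ℚ) - 2 * k) * g k) * Bp (n + 1) (k + 1) := by
    intro k _
    congr 2
    show 4 * ((n : ℚ) + 2 - 2 * ((k + 1 : ℕ) : ℚ)) * g k = _
    push_cast
    ring
  rw [sum_congr rfl h3]
  simp [sh]

lemma oneSub_Qp {n : ℕ} {g : ℕ → ℚ} (hg : Supp n g) :
    (1 - X) * ((1 - X) * Qp n g) = Qp (n + 2) (Rg g) := by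
  unfold Qp
  rw [mul_sum, mul_sum]
  have h1 : ∀ k ∈ range (n + 1), (1 - X) * ((1 - X) * (C (g k) * Bp n k)) =
      C (g k) * Bp (n + 2) k - C (4 * g k) * Bp (n + 2) (k + 1) := by
    intro k _
    by_cases hk : 2 * k ≤ n
    · have := oneSub_Bp hk
      have h2 : (1 - X) * ((1 - X) * (C (g k) * Bp n k)) =
          C (g k) * ((1 - X) * ((1 - X) * Bp n k)) := by ring
      rw [h2, this, map_mul]
      ring
    · rw [hg k (by omega)]
      simp
  rw [sum_congr rfl h1, sum_sub_distrib]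
  have h2 : ∀ k ∈ range (n + 2 + 1), C (Rg g k) * Bp (n + 2) k =
      C (g k) * Bp (n + 2) k - C (4 * sh g k) * Bp (n + 2) k := by
    intro k _
    unfold Rg
    rw [map_sub, sub_mul]
  rw [sum_congr rfl h2, sum_sub_distrib, sum_range_succ (fun k => C (g k) * Bp (n + 2) k) (n + 2),
    sum_range_succ (fun k => C (g k) * Bp (n + 2) k) (n + 1), hg (n + 1) (by omega),
    hg (n + 2) (by omega), sum_range_succ' (fun k : ℕ => C (4 * sh g k) * Bp (n + 2) k) (n + 2),
    sum_range_succ (fun k : ℕ => C (4 * sh g (k + 1)) * Bp (n + 2) (k + 1)) (n + 1)]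
  have h3 : sh g (n + 1 + 1) = 0 := hg (n + 1) (by omega)
  rw [h3]
  simp [sh]

/-- the gamma coefficients -/
def gm : ℕ → ℕ → ℚ
  | 0 => fun k => if k = 0 then 1 else 0
  | 1 => fun k => if k = 0 then 1 else 0
  | n + 2 => fun k => (2 * Eg (n + 1) (gm (n + 1)) k + Eg (n + 1) (Eg n (gm n)) k +
      (2 * n + 1) * Rg (gm n) k) / (2 * (n + 2))

lemma supp_sh {n k : ℕ} {g : ℕ → ℚ} (hg : Supp n g) (h : n + 2 < 2 * k) : sh g k = 0 := by
  obtain ⟨j, rfl⟩ : ∃ j, k = j + 1 := ⟨k - 1, by omega⟩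
  exact hg j (by omega)

lemma supp_Eg {n : ℕ} {g : ℕ → ℚ} (hg : Supp n g) : Supp (n + 1) (Eg n g) := by
  intro k hk
  unfold Eg
  rw [hg k (by omega)]
  by_cases h : n + 2 < 2 * k
  · rw [supp_sh hg h]; ring
  · have h1 : 2 * k = n + 2 := by omega
    have h2 : ((2 * k : ℕ) : ℚ) = ((n + 2 : ℕ) : ℚ) := by rw [h1]
    push_cast at h2
    rw [h2]
    ring

lemma supp_Rg {n : ℕ} {g : ℕ → ℚ} (hg : Supp n g) : Supp (n + 2) (Rg g) := by
  intro k hk
  unfold Rg
  rw [hg k (by omega), supp_sh hg hk]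
  ring

lemma supp_gm : ∀ n, Supp n (gm n)
  | 0 => by intro k hk; simp [gm]; omega
  | 1 => by intro k hk; simp [gm]; omega
  | n + 2 => by
    intro k hk
    show (2 * Eg (n + 1) (gm (n + 1)) k + Eg (n + 1) (Eg n (gm n)) k +
      (2 * n + 1) * Rg (gm n) k) / (2 * (n + 2)) = 0
    rw [supp_Eg (supp_gm (n + 1)) k hk, supp_Eg (supp_Eg (supp_gm n)) k hk,
      supp_Rg (supp_gm n) k hk]
    simp

lemma Qp_comb {n : ℕ} (a b c : ℚ) (g h r : ℕ → ℚ) :
    C a * Qp n g + C b * Qp n h + C c * Qp n r =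
      Qp n (fun k => a * g k + b * h k + c * r k) := by
  unfold Qp
  rw [mul_sum, mul_sum, mul_sum, ← sum_add_distrib, ← sum_add_distrib]
  apply sum_congr rfl
  intro k _
  simp only [map_add, map_mul]
  ring

theorem IQ_eq : ∀ n, IQ n = Qp n (gm n)
  | 0 => by rw [IQ_zero]; simp [Qp, gm, Bp]
  | 1 => by
    rw [IQ_one]
    unfold Qp Bp
    rw [sum_range_succ, sum_range_one]
    simp [gm]
  | n + 2 => by
    have h := IQ_rec n
    rw [IQ_eq (n + 1), IQ_eq n, E_Qp (supp_gm (n + 1)), E_Qp (supp_gm n),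
      E_Qp (supp_Eg (supp_gm n)), oneSub_Qp (supp_gm n)] at h
    have hne : (2 * ((n : ℚ) + 2)) ≠ 0 := by positivity
    have h1 : C (2 * ((n : ℚ) + 2)) * IQ (n + 2) = C (2 * ((n : ℚ) + 2)) * Qp (n + 2) (gm (n + 2)) := by
      rw [h]
      have h2 := Qp_comb (n := n + 2) 2 1 (2 * (n : ℚ) + 1) (Eg (n + 1) (gm (n + 1)))
        (Eg (n + 1) (Eg n (gm n))) (Rg (gm n))
      rw [map_one, one_mul] at h2
      have h3 : n + 1 + 1 = n + 2 := rfl
      rw [h3, h2]
      unfold Qp
      rw [mul_sum]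
      apply sum_congr rfl
      intro k _
      rw [← mul_assoc, ← map_mul]
      congr 2
      show _ = 2 * ((n : ℚ) + 2) * ((2 * Eg (n + 1) (gm (n + 1)) k + Eg (n + 1) (Eg n (gm n)) k +
        (2 * n + 1) * Rg (gm n) k) / (2 * (n + 2)))
      rw [mul_div_cancel₀ _ hne]
      ring
    exact mul_left_cancel₀ (by rw [Ne, C_eq_zero]; exact hne) h1

/-! ### nonnegativity -/

lemma sh_sh (g : ℕ → ℚ) (k : ℕ) : sh g (k + 1) = g k := rfl

lemma gm_rec (n k : ℕ) : ((n : ℚ) + 2) * gm (n + 2) k =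
    (2 * k + 1) * gm (n + 1) k + 4 * (n + 3 - 2 * k) * sh (gm (n + 1)) k +
    (2 * k ^ 2 + 2 * k + n + 1) * gm n k +
    (8 * k * (n + 2 - 2 * k) - 4 * (n + 1 - k)) * sh (gm n) k +
    8 * (n + 4 - 2 * k) * (n + 3 - 2 * k) * sh (sh (gm n)) k := by
  have hne : (2 * ((n : ℚ) + 2)) ≠ 0 := by positivity
  have h1 : ((n : ℚ) + 2) * gm (n + 2) k = (2 * Eg (n + 1) (gm (n + 1)) k +
      Eg (n + 1) (Eg n (gm n)) k + (2 * n + 1) * Rg (gm n) k) / 2 := by
    show ((n : ℚ) + 2) * ((2 * Eg (n + 1) (gm (n + 1)) k + Eg (n + 1) (Eg n (gm n)) k +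
      (2 * n + 1) * Rg (gm n) k) / (2 * (n + 2))) = _
    field_simp
  rw [h1]
  unfold Eg Rg
  cases k with
  | zero =>
    simp only [sh]
    push_cast
    ring
  | succ k =>
    simp only [sh]
    push_cast
    ring

lemma sh_nonneg {g : ℕ → ℚ} (h : ∀ k, 0 ≤ g k) (k : ℕ) : 0 ≤ sh g k := by
  cases k with
  | zero => exact le_rfl
  | succ k => exact h k

/-- the ratio bound -/
lemma ratio {m : ℕ} (hm : 2 ≤ m) (h1 : ∀ k, 0 ≤ gm (2 * m - 1) k)
    (h2 : ∀ k, 0 ≤ gm (2 * m - 2) k) : (m : ℚ) * gm (2 * m) m ≤ 4 * gm (2 * m) (m - 1) := by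
  obtain ⟨l, rfl⟩ : ∃ l, m = l + 2 := ⟨m - 2, by omega⟩
  have e1 : 2 * (l + 2) - 1 = 2 * l + 2 + 1 := by omega
  have e2 : 2 * (l + 2) - 2 = 2 * l + 2 := by omega
  rw [e1] at h1
  rw [e2] at h2
  have r1 := gm_rec (2 * l + 2) (l + 2)
  have r2 := gm_rec (2 * l + 2) (l + 1)
  have s1 : gm (2 * l + 2 + 1) (l + 2) = 0 := supp_gm _ _ (by omega)
  have s2 : gm (2 * l + 2) (l + 2) = 0 := supp_gm _ _ (by omega)
  rw [s1, s2] at r1
  have t1 : sh (gm (2 * l + 2 + 1)) (l + 2) = gm (2 * l + 2 + 1) (l + 1) := rfl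
  have t2 : sh (gm (2 * l + 2)) (l + 2) = gm (2 * l + 2) (l + 1) := rfl
  have t3 : sh (sh (gm (2 * l + 2))) (l + 2) = gm (2 * l + 2) l := rfl
  have t4 : sh (gm (2 * l + 2 + 1)) (l + 1) = gm (2 * l + 2 + 1) l := rfl
  have t5 : sh (gm (2 * l + 2)) (l + 1) = gm (2 * l + 2) l := rfl
  have t6 : 0 ≤ sh (sh (gm (2 * l + 2))) (l + 1) := by
    show 0 ≤ sh (gm (2 * l + 2)) l
    exact sh_nonneg h2 l
  rw [t1, t2, t3] at r1
  rw [t4, t5] at r2
  have e3 : 2 * (l + 2) = 2 * l + 2 + 2 := by omega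
  rw [e3, show l + 2 - 1 = l + 1 by omega]
  have p1 := h1 (l + 1)
  have p2 := h1 l
  have p3 := h2 (l + 1)
  have p4 := h2 l
  push_cast at r1 r2 ⊢
  set A := gm (2 * l + 2 + 2) (l + 2)
  set B := gm (2 * l + 2 + 2) (l + 1)
  set a := gm (2 * l + 2 + 1) (l + 1)
  set b := gm (2 * l + 2 + 1) l
  set c := gm (2 * l + 2) (l + 1)
  set d := gm (2 * l + 2) l
  set e := sh (sh (gm (2 * l + 2))) (l + 1)
  have hl : (0 : ℚ) ≤ l := Nat.cast_nonneg l
  have r1' : (2 * (l : ℚ) + 4) * A = 4 * a - 4 * (l + 1) * c + 16 * d := by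
    linear_combination r1
  have r2' : (2 * (l : ℚ) + 4) * B = (2 * l + 3) * a + 12 * b +
      (2 * ((l : ℚ) + 1) ^ 2 + 4 * l + 5) * c + (12 * l + 8) * d + 96 * e := by
    linear_combination r2
  have hkey : (2 * (l : ℚ) + 4) * ((l + 2) * A) ≤ (2 * (l : ℚ) + 4) * (4 * B) := by
    have e4 : (2 * (l : ℚ) + 4) * (4 * B) - (2 * (l : ℚ) + 4) * ((l + 2) * A) =
        (4 * (2 * l + 3) - 4 * (l + 2)) * a + 48 * b +
        (4 * (2 * ((l : ℚ) + 1) ^ 2 + 4 * l + 5) + 4 * (l + 1) * (l + 2)) * c +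
        (4 * (12 * l + 8) - 16 * (l + 2)) * d + 384 * e := by
      linear_combination 4 * r2' - (l + 2) * r1'
    have q1 : 0 ≤ (4 * (2 * (l : ℚ) + 3) - 4 * (l + 2)) * a := mul_nonneg (by linarith) p1
    have q2 : 0 ≤ (4 * (2 * ((l : ℚ) + 1) ^ 2 + 4 * l + 5) + 4 * (l + 1) * (l + 2)) * c :=
      mul_nonneg (by positivity) p3
    have q3 : 0 ≤ (4 * (12 * (l : ℚ) + 8) - 16 * (l + 2)) * d := mul_nonneg (by linarith) p4
    linarith
  exact le_of_mul_le_mul_left hkey (by positivity)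

lemma ratio_one : ((1 : ℕ) : ℚ) * gm (2 * 1) 1 ≤ 4 * gm (2 * 1) (1 - 1) := by
  have r1 := gm_rec 0 1
  have r2 := gm_rec 0 0
  simp only [gm, sh] at r1 r2 ⊢
  norm_num [Eg, Rg, sh]

theorem gm_nonneg (n : ℕ) : ∀ k, 0 ≤ gm n k := by
  induction n using Nat.strong_induction_on with
  | _ n ih =>
    intro k
    rcases Nat.lt_or_ge n 2 with hn | hn
    · interval_cases n
      · simp only [gm]; split_ifs <;> norm_num
      · simp only [gm]; split_ifs <;> norm_num
    · obtain ⟨n, rfl⟩ : ∃ j, n = j + 2 := ⟨n - 2, by omega⟩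
      rcases Nat.lt_or_ge (n + 2) (2 * k) with hk | hk
      · rw [supp_gm _ _ hk]
      · have h0 := ih n (by omega)
        have h1 := ih (n + 1) (by omega)
        have hr := gm_rec n k
        have hpos : 0 < ((n : ℚ) + 2) := by positivity
        rcases Nat.eq_zero_or_pos k with hk0 | hk0
        · subst hk0
          simp only [sh] at hr
          push_cast at hr
          have : 0 ≤ ((n : ℚ) + 2) * gm (n + 2) 0 := by
            rw [hr]
            have := h1 0
            have := h0 0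
            have hn0 : (0 : ℚ) ≤ n := Nat.cast_nonneg n
            have : 0 ≤ ((n : ℚ) + 1) * gm n 0 := by positivity
            linarith
          exact nonneg_of_mul_nonneg_right this hpos
        · rcases Nat.lt_or_ge (2 * k) (n + 2) with hlt | hge
          · -- generic case: all coefficients are nonnegative
            obtain ⟨d, hd⟩ : ∃ d : ℕ, n + 1 = 2 * k + d := ⟨n + 1 - 2 * k, by omega⟩
            have hnq : (n : ℚ) = 2 * k + d - 1 := by
              have : ((n + 1 : ℕ) : ℚ) = ((2 * k + d : ℕ) : ℚ) := by rw [hd]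
              push_cast at this
              linarith
            have hkq : (1 : ℚ) ≤ k := by exact_mod_cast hk0
            have hdq : (0 : ℚ) ≤ d := Nat.cast_nonneg d
            have : 0 ≤ ((n : ℚ) + 2) * gm (n + 2) k := by
              rw [hr]
              have c1 : 0 ≤ (2 * (k : ℚ) + 1) * gm (n + 1) k := mul_nonneg (by positivity) (h1 k)
              have c2 : 0 ≤ 4 * ((n : ℚ) + 3 - 2 * k) * sh (gm (n + 1)) k :=
                mul_nonneg (by rw [hnq]; linarith) (sh_nonneg h1 k)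
              have c3 : 0 ≤ (2 * (k : ℚ) ^ 2 + 2 * k + n + 1) * gm n k :=
                mul_nonneg (by positivity) (h0 k)
              have c4 : 0 ≤ (8 * (k : ℚ) * (n + 2 - 2 * k) - 4 * (n + 1 - k)) * sh (gm n) k := by
                apply mul_nonneg _ (sh_nonneg h0 k)
                rw [hnq]
                have : 8 * (k : ℚ) * (2 * k + d - 1 + 2 - 2 * k) - 4 * (2 * k + d - 1 + 1 - k) =
                    4 * k + 8 * k * d - 4 * d := by ring
                rw [this]
                have : (d : ℚ) ≤ k * d := by nlinarith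
                linarith
              have c5 : 0 ≤ 8 * ((n : ℚ) + 4 - 2 * k) * (n + 3 - 2 * k) * sh (sh (gm n)) k :=
                mul_nonneg (mul_nonneg (by rw [hnq]; linarith) (by rw [hnq]; linarith))
                  (sh_nonneg (sh_nonneg h0) k)
              linarith
            exact nonneg_of_mul_nonneg_right this hpos
          · -- the middle coefficient
            have hk2 : 2 * k = n + 2 := by omega
            have hnq : (n : ℚ) = 2 * k - 2 := by
              have : ((2 * k : ℕ) : ℚ) = ((n + 2 : ℕ) : ℚ) := by rw [hk2]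
              push_cast at this
              linarith
            have s1 : gm (n + 1) k = 0 := supp_gm _ _ (by omega)
            have s2 : gm n k = 0 := supp_gm _ _ (by omega)
            rw [s1, s2, hnq] at hr
            have c2 := sh_nonneg h1 k
            have hr' : (2 * (k : ℚ) - 2 + 2) * gm (n + 2) k = 4 * sh (gm (n + 1)) k +
                (16 * sh (sh (gm n)) k - 4 * (k - 1) * sh (gm n) k) := by
              linear_combination hr
            have : 0 ≤ (2 * (k : ℚ) - 2 + 2) * gm (n + 2) k := by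
              rw [hr']
              rcases Nat.lt_or_ge k 2 with hk1 | hk1
              · have : k = 1 := by omega
                subst this
                have := sh_nonneg (sh_nonneg h0) 1
                push_cast
                linarith
              · obtain ⟨l, rfl⟩ : ∃ l, k = l + 2 := ⟨k - 2, by omega⟩
                have hnl : n = 2 * (l + 1) := by omega
                have hrat : ((l + 1 : ℕ) : ℚ) * gm (2 * (l + 1)) (l + 1) ≤
                    4 * gm (2 * (l + 1)) (l + 1 - 1) := by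
                  rcases Nat.eq_zero_or_pos l with hl | hl
                  · subst hl; exact ratio_one
                  · apply ratio (by omega)
                    · exact ih _ (by omega)
                    · exact ih _ (by omega)
                rw [← hnl, Nat.add_sub_cancel] at hrat
                have t2 : sh (gm n) (l + 2) = gm n (l + 1) := rfl
                have t3 : sh (sh (gm n)) (l + 2) = gm n l := rfl
                rw [t2, t3]
                push_cast at hrat ⊢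
                linarith
            have hkq : (0 : ℚ) < 2 * (k : ℚ) - 2 + 2 := by
              have : (0 : ℚ) < k := by exact_mod_cast hk0
              linarith
            exact nonneg_of_mul_nonneg_right this hkq

end Pool.Agent.Q162.Gam
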