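import Mathlib
import Pool.Agent.Q162.Gam.Gamma

/-!
The descent polynomial on signed involutions is gamma-positive.
-/

set_option autoImplicit false

open Finset Polynomial Q166.BInv

namespace Pool.Agent.Q162.Gam

lemma coeff_Bp {n j : ℕ} (k : ℕ) : (Bp n j).coeff k =
    if j ≤ k then ((n - 2 * j).choose (k - j) : ℚ) else 0 := by
  unfold Bp
  rw [coeff_X_pow_mul']
  split_ifs
  · rw [coeff_one_add_X_pow]
  · rfl

lemma coeff_IQ (n k : ℕ) : (IQ n).coeff k =
    ((univ.filter (fun w : SI n => k = (Des false w).card)).card : ℚ) := by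
  unfold IQ
  rw [finsetSum_coeff]
  simp only [coeff_X_pow]
  rw [sum_ite, sum_const_zero, add_zero, sum_const, nsmul_eq_mul, mul_one]

lemma gm_int (n : ℕ) : ∀ k, gm n k ∈ (Int.castRingHom ℚ).range := by
  intro k
  induction k using Nat.strong_induction_on with
  | _ k ih =>
    rcases Nat.lt_or_ge n k with hk | hk
    · rw [supp_gm n k (by omega)]
      exact zero_mem _
    · have h1 : (IQ n).coeff k = ∑ j ∈ range (n + 1), gm n j *
          (if j ≤ k then ((n - 2 * j).choose (k - j) : ℚ) else 0) := by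
        rw [IQ_eq, Qp, finsetSum_coeff]
        exact sum_congr rfl (fun j _ => by rw [coeff_C_mul, coeff_Bp])
      have h2 : ∑ j ∈ range (n + 1), gm n j *
          (if j ≤ k then ((n - 2 * j).choose (k - j) : ℚ) else 0) =
          ∑ j ∈ range (k + 1), gm n j * ((n - 2 * j).choose (k - j) : ℚ) := by
        rw [← sum_subset (s₁ := range (k + 1)) (s₂ := range (n + 1))]
        · apply sum_congr rfl
          intro j hj
          rw [mem_range] at hj
          rw [if_pos (by omega)]
        · intro j hj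
          rw [mem_range] at hj ⊢
          omega
        · intro j _ hj
          rw [mem_range] at hj
          rw [if_neg (by omega), mul_zero]
      rw [h2, sum_range_succ, Nat.sub_self, Nat.choose_zero_right, Nat.cast_one, mul_one] at h1
      have h3 : gm n k = (IQ n).coeff k -
          ∑ j ∈ range k, gm n j * ((n - 2 * j).choose (k - j) : ℚ) := by
        rw [h1]; ring
      rw [h3]
      apply sub_mem
      · rw [coeff_IQ]
        exact ⟨((univ.filter (fun w : SI n => k = (Des false w).card)).card : ℤ), by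
          rw [eq_intCast, Int.cast_natCast]⟩
      · apply sum_mem
        intro j hj
        rw [mem_range] at hj
        apply mul_mem (ih j hj)
        exact ⟨((n - 2 * j).choose (k - j) : ℕ), by simp⟩

lemma gm_nat (n k : ℕ) : ∃ z : ℕ, gm n k = z := by
  obtain ⟨z, hz⟩ := gm_int n k
  have h0 := gm_nonneg n k
  have hz' : (z : ℚ) = gm n k := by simpa using hz
  rw [← hz'] at h0
  have h1 : 0 ≤ z := by exact_mod_cast h0
  refine ⟨z.toNat, ?_⟩
  rw [← hz']
  have : ((z.toNat : ℤ) : ℚ) = (z : ℚ) := by rw [Int.toNat_of_nonneg h1]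
  rw [← this, Int.cast_natCast]

theorem IQ_gamma (n : ℕ) : ∃ γ : ℕ → ℕ, IQ n =
    ∑ i ∈ range (n / 2 + 1), C (γ i : ℚ) * X ^ i * (1 + X) ^ (n - 2 * i) := by
  choose γ hγ using gm_nat n
  refine ⟨γ, ?_⟩
  rw [IQ_eq, Qp, ← sum_subset (s₁ := range (n / 2 + 1)) (s₂ := range (n + 1))]
  · apply sum_congr rfl
    intro i _
    rw [hγ i, Bp, mul_assoc]
  · intro j hj
    rw [mem_range] at hj ⊢
    omega
  · intro j _ hj
    rw [mem_range] at hj
    rw [supp_gm n j (by omega)]
    simp

/-! ### the frozen form -/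

variable {n : ℕ}

/-- the statistic of the frozen statement -/
def st (w : Equiv.Perm (Fin n) × (Fin n → Bool)) : ℕ :=
  (Finset.univ.filter (fun j : Fin n => j.val = 0 ∧ w.2 j = true)).card +
    (Finset.univ.filter (fun p : Fin n × Fin n => p.2.val = p.1.val + 1 ∧
      (if w.2 p.2 then (-1 : ℤ) else 1) * (((w.1 p.2 : ℕ) : ℤ) + 1) <
      (if w.2 p.1 then (-1 : ℤ) else 1) * (((w.1 p.1 : ℕ) : ℤ) + 1))).card

lemma K_true (b : Fin n) (e : Bool) : K n true b (!e) =
    (if e then (-1 : ℤ) else 1) * (((b : ℕ) : ℤ) + 1) := by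
  cases e <;> simp [K]

lemma st_eq (v : SI n) (w : Equiv.Perm (Fin n) × (Fin n → Bool)) (h1 : ∀ a, v.1.1 a = w.1 a)
    (h2 : ∀ a, v.1.2 a = !(w.2 a)) : (Des true v).card = st w := by
  have hk : ∀ a : Fin n, kv true v (a.1 + 1) =
      (if w.2 a then (-1 : ℤ) else 1) * (((w.1 a : ℕ) : ℤ) + 1) := by
    intro a
    rw [kv_succ, h1, h2, K_true]
  have hD : Des true v =
      (univ.filter (fun j : Fin n => j.val = 0 ∧ w.2 j = true)).image (fun j => j.val) ∪
      (univ.filter (fun p : Fin n × Fin n => p.2.val = p.1.val + 1 ∧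
      (if w.2 p.2 then (-1 : ℤ) else 1) * (((w.1 p.2 : ℕ) : ℤ) + 1) <
      (if w.2 p.1 then (-1 : ℤ) else 1) * (((w.1 p.1 : ℕ) : ℤ) + 1))).image
        (fun p => p.2.val) := by
    ext i
    unfold Des
    rw [mem_filter, mem_range, mem_union, mem_image, mem_image]
    constructor
    · rintro ⟨hi, hlt⟩
      have e2 := hk ⟨i, hi⟩
      simp only at e2
      rcases Nat.eq_zero_or_pos i with h0 | h0
      · left
        subst h0
        refine ⟨⟨0, hi⟩, ?_, rfl⟩
        rw [mem_filter]
        refine ⟨mem_univ _, rfl, ?_⟩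
        rw [kv_zero, e2] at hlt
        by_contra hc
        rw [if_neg hc] at hlt
        omega
      · right
        have e1 := hk ⟨i - 1, by omega⟩
        simp only at e1
        rw [show i - 1 + 1 = i by omega] at e1
        refine ⟨(⟨i - 1, by omega⟩, ⟨i, hi⟩), ?_, rfl⟩
        rw [mem_filter]
        refine ⟨mem_univ _, ?_, ?_⟩
        · show i = i - 1 + 1
          omega
        · rw [← e1, ← e2]
          exact hlt
    · rintro (⟨j, hj, rfl⟩ | ⟨p, hp, rfl⟩)
      · obtain ⟨_, h3, h4⟩ := mem_filter.1 hj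
        refine ⟨j.2, ?_⟩
        rw [hk j, h4, h3, kv_zero, if_pos rfl]
        omega
      · obtain ⟨_, h3, h4⟩ := mem_filter.1 hp
        refine ⟨p.2.2, ?_⟩
        rw [hk p.2, h3, hk p.1]
        exact h4
  rw [hD, card_union_of_disjoint, card_image_of_injOn, card_image_of_injOn]
  · rfl
  · intro p hp q hq hpq
    have h3 := (mem_filter.1 (mem_coe.1 hp)).2.1
    have h4 := (mem_filter.1 (mem_coe.1 hq)).2.1
    simp only at hpq
    exact Prod.ext (Fin.ext (by omega)) (Fin.ext hpq)
  · intro i _ j _ hij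
    exact Fin.ext hij
  · rw [disjoint_left]
    intro i hi hi'
    rw [mem_image] at hi hi'
    obtain ⟨j, hj, rfl⟩ := hi
    obtain ⟨p, hp, hpj⟩ := hi'
    have h3 := (mem_filter.1 hj).2.1
    have h4 := (mem_filter.1 hp).2.1
    omega

theorem sum_st (n : ℕ) :
    (∑ w ∈ (Finset.univ : Finset (Equiv.Perm (Fin n) × (Fin n → Bool))).filter
        (fun w => ∀ i : Fin n, w.1 (w.1 i) = i ∧ w.2 (w.1 i) = w.2 i),
      (X : ℤ[X]) ^ st w) = ∑ v : SI n, (X : ℤ[X]) ^ (Des true v).card := by
  symm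
  refine sum_bij' (fun v _ => (Function.Involutive.toPerm v.1.1 v.2.1, fun a => !(v.1.2 a)))
    (fun w hw => ⟨(fun a => w.1 a, fun a => !(w.2 a)), ?_⟩) ?_ ?_ ?_ ?_ ?_
  · have h := (mem_filter.1 hw).2
    refine ⟨fun a => (h a).1, fun a => ?_⟩
    show (!(w.2 (w.1 a))) = !(w.2 a)
    rw [(h a).2]
  · intro v _
    rw [mem_filter]
    refine ⟨mem_univ _, fun i => ⟨v.2.1 i, ?_⟩⟩
    show (!(v.1.2 (v.1.1 i))) = !(v.1.2 i)
    rw [v.2.2]
  · intro w _; exact mem_univ _
  · intro v _
    apply Subtype.ext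
    apply Prod.ext
    · rfl
    · funext a
      simp
  · intro w _
    apply Prod.ext
    · apply Equiv.ext
      intro a
      rfl
    · funext a
      simp
  · intro v _
    rw [st_eq v (Function.Involutive.toPerm v.1.1 v.2.1, fun a => !(v.1.2 a)) (fun a => rfl)
      (fun a => by simp)]

theorem main (n : ℕ) : ∃ γ : ℕ → ℕ,
    (∑ w ∈ (Finset.univ : Finset (Equiv.Perm (Fin n) × (Fin n → Bool))).filter
        (fun w => ∀ i : Fin n, w.1 (w.1 i) = i ∧ w.2 (w.1 i) = w.2 i),
      (X : ℤ[X]) ^ st w)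
    = ∑ i ∈ Finset.range (n / 2 + 1), C (γ i : ℤ) * X ^ i * (1 + X) ^ (n - 2 * i) := by
  obtain ⟨γ, hγ⟩ := IQ_gamma n
  refine ⟨γ, ?_⟩
  apply Polynomial.map_injective (Int.castRingHom ℚ) Int.cast_injective
  rw [sum_st, Polynomial.map_sum, Polynomial.map_sum]
  have h1 : ∑ v : SI n, Polynomial.map (Int.castRingHom ℚ) ((X : ℤ[X]) ^ (Des true v).card) =
      IQ n := by
    unfold IQ
    rw [← sum_des_eq (fun D => (X : ℚ[X]) ^ D.card)]
    apply sum_congr rfl
    intro v _
    rw [Polynomial.map_pow, Polynomial.map_X]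
  rw [h1, hγ]
  apply sum_congr rfl
  intro i _
  simp only [Polynomial.map_mul, Polynomial.map_pow, Polynomial.map_X, Polynomial.map_add,
    Polynomial.map_one, Polynomial.map_C]
  simp

end Pool.Agent.Q162.Gam
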